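import Pool.Agent.MP_3ad207_lc.H43.LadderB

/-! The ladder gate. -/

set_option autoImplicit false

namespace Pool.Agent.Ehf

/-- the wall between two doors -/
theorem two_doors (hW : WallStmt) {V : Type} [Finite V] {G : SimpleGraph V} {S I : Set V}
    {h : Setup G S I} {p g₁ x g₂ g₁' x' g₂' : V} {A B : Set V} {C : Finset V} (s : h.Sides p A B)
    (d : h.SDoor p A g₁ x g₂) (d' : h.SDoor p B g₁' x' g₂')
    (hC : ∀ v, v ∈ C ↔ v = p ∨ v = g₁ ∨ v = x ∨ v = g₂ ∨ v = g₁' ∨ v = x' ∨ v = g₂') :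
    (C : Set V) ⊆ HH S I ∧ (∀ v ∈ C, v = p ∨ v = g₁ ∨ v = x ∨ v = g₂ ∨ v ∈ B) ∧
    (∀ v ∈ C, v = p ∨ v = g₁' ∨ v = x' ∨ v = g₂' ∨ v ∈ A) ∧
    h.SubO p g₂ ∪ h.SubO p g₂' ⊆ HC G S I C ∧
    ∃ K : Set V, Conn G K ∧ p ∈ K ∧ Anti G K (h.SubO p g₂) ∧ Anti G K (h.SubO p g₂') ∧
      Anti G K {x} ∧ Anti G K {x'} ∧ (∀ v ∈ K, v ∉ HH S I → ¬ Sees G v (C : Set V)) ∧
      Anti G (HC G S I C \ K) (HC G S I C ∩ K) ∧
      (∀ T, Conn G T → T ⊆ HC G S I C \ (h.SubO p g₂ ∪ h.SubO p g₂') → Touch G T K → T ⊆ K) ∧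
      (∀ Y, Conn G Y → Y ⊆ Free G S I (C : Set V) → Touch G Y (HC G S I C \ K) →
        Touch G Y (HC G S I C ∩ K) → Touch G Y (h.SubO p g₂ ∪ h.SubO p g₂')) ∧
      ∀ z ∈ HH S I, z ∉ C → z ∉ HC G S I C ∩ K → z ∈ h.Sub p x ∪ h.Sub p x' := by
  have pH := s.uH
  have c1 : ∀ v ∈ C, v = p ∨ v = g₁ ∨ v = x ∨ v = g₂ ∨ v ∈ B := by
    intro v hv
    rcases (hC v).1 hv with e | e | e | e | e | e | e
    · exact Or.inl e
    · exact Or.inr (Or.inl e)
    · exact Or.inr (Or.inr (Or.inl e))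
    · exact Or.inr (Or.inr (Or.inr (Or.inl e)))
    · exact Or.inr (Or.inr (Or.inr (Or.inr (e ▸ d'.gA))))
    · exact Or.inr (Or.inr (Or.inr (Or.inr (e ▸ d'.xA s.symm))))
    · exact Or.inr (Or.inr (Or.inr (Or.inr (e ▸ d'.g2A s.symm))))
  have c2 : ∀ v ∈ C, v = p ∨ v = g₁' ∨ v = x' ∨ v = g₂' ∨ v ∈ A := by
    intro v hv
    rcases (hC v).1 hv with e | e | e | e | e | e | e
    · exact Or.inl e
    · exact Or.inr (Or.inr (Or.inr (Or.inr (e ▸ d.gA))))
    · exact Or.inr (Or.inr (Or.inr (Or.inr (e ▸ d.xA s))))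
    · exact Or.inr (Or.inr (Or.inr (Or.inr (e ▸ d.g2A s))))
    · exact Or.inr (Or.inl e)
    · exact Or.inr (Or.inr (Or.inl e))
    · exact Or.inr (Or.inr (Or.inr (Or.inl e)))
  have CH : (C : Set V) ⊆ HH S I := by
    intro v hv
    rcases c1 v hv with e | e | e | e | e
    exacts [e ▸ pH, e ▸ s.subset_H d.gA, e ▸ d.c1.mem_H, e ▸ d.c2.mem_H, s.symm.subset_H e]
  have lowC : h.SubO p g₂ ∪ h.SubO p g₂' ⊆ HC G S I C :=
    Set.union_subset (d.subO_subset_HC s c1 d.c2) (d'.subO_subset_HC s.symm c2 d'.c2)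
  have bl : (C : Set V) ∩ (I \ S) ⊆ {x} ∪ {x'} := by
    rintro v ⟨hv, hb⟩
    rcases (hC v).1 hv with e | e | e | e | e | e | e
    · exact (not_white_of_black hb (e ▸ s.white)).elim
    · exact (not_white_of_black hb (e ▸ d.door.w1)).elim
    · exact Or.inl e
    · exact (not_white_of_black hb (e ▸ d.door.w2)).elim
    · exact (not_white_of_black hb (e ▸ d'.door.w1)).elim
    · exact Or.inr e
    · exact (not_white_of_black hb (e ▸ d'.door.w2)).elim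
  have cenB : Anti G (HH S I \ (h.Sub p g₁ ∪ h.Sub p g₁')) ((C : Set V) ∩ (I \ S)) :=
    (Anti.union_right
      ((h.anti_subO_compl pH).symm.mono (fun z hz => ⟨hz.1, fun c => hz.2 (Or.inl c)⟩)
        (Set.singleton_subset_iff.2 d.c1.mem_subO))
      ((h.anti_subO_compl pH).symm.mono (fun z hz => ⟨hz.1, fun c => hz.2 (Or.inr c)⟩)
        (Set.singleton_subset_iff.2 d'.c1.mem_subO))).mono le_rfl bl
  obtain ⟨K, cK, cenK, kL, kB, -, kC, aIO, clo, wall⟩ := hW V G S I C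
    (h.SubO p g₂ ∪ h.SubO p g₂') (HH S I \ (h.Sub p g₁ ∪ h.Sub p g₁')) h CH lowC
    (Anti.union_right
      ((h.anti_subO_compl pH).symm.mono (fun z hz => ⟨hz.1.1, fun c =>
        (Setup.mem_sub_cases c).elim (fun e => hz.1.2.1 ((hC z).2 (by simp [e])))
          fun e => hz.2 (Or.inl e)⟩) le_rfl)
      ((h.anti_subO_compl pH).symm.mono (fun z hz => ⟨hz.1.1, fun c =>
        (Setup.mem_sub_cases c).elim (fun e => hz.1.2.1 ((hC z).2 (by simp [e])))
          fun e => hz.2 (Or.inr e)⟩) le_rfl))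
    (h.conn_compl_sub_two pH (s.ne d.gA) (s.symm.ne d'.gA)) Set.sdiff_subset
    (Anti.union_right
      ((h.anti_subO_compl pH).symm.mono (fun z hz => ⟨hz.1, fun c => hz.2 (Or.inl c)⟩)
        (h.subO_subset_sub.trans (d.sub_g2 s)))
      ((h.anti_subO_compl pH).symm.mono (fun z hz => ⟨hz.1, fun c => hz.2 (Or.inr c)⟩)
        (h.subO_subset_sub.trans (d'.sub_g2 s.symm))))
    cenB
  refine ⟨CH, c1, c2, lowC, K, cK,
    cenK ⟨pH, fun c => c.elim (s.u_not_mem_sub d.gA) (s.symm.u_not_mem_sub d'.gA)⟩,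
    kL.mono le_rfl Set.subset_union_left, kL.mono le_rfl Set.subset_union_right,
    kB.mono le_rfl (Set.singleton_subset_iff.2 ⟨(hC x).2 (by simp), d.door.black⟩),
    kB.mono le_rfl (Set.singleton_subset_iff.2 ⟨(hC x').2 (by simp), d'.door.black⟩),
    kC, aIO, clo, wall, fun z hz zC zO => ?_⟩
  by_cases zc : z ∈ h.Sub p g₁ ∪ h.Sub p g₁'
  · rcases zc with c | c
    · rcases Setup.mem_sub_cases c with e | e
      · exact (zC ((hC z).2 (by simp [e]))).elim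
      · exact Or.inl (d.subO_g1 s ▸ e)
    · rcases Setup.mem_sub_cases c with e | e
      · exact (zC ((hC z).2 (by simp [e]))).elim
      · exact Or.inr (d'.subO_g1 s.symm ▸ e)
  · exact (zO ⟨⟨hz, zC, fun y hy hb a => cenB.not_adj ⟨hz, zc⟩ ⟨hy, hb⟩ a⟩, cenK ⟨hz, zc⟩⟩).elim

theorem ladderStmt (hPos : PosStmt) (hW : WallStmt) (hT : TeethStmt) (hX : CrossStmt)
    (hCl : CleanStmt) (hCu : CleanupStmt) (hE : EarOfStmt) (hAl : AlignStmt) : LadderStmt := by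
  classical
  obtain ⟨K1, hPos⟩ := hPos
  obtain ⟨kT, hT⟩ := hT
  obtain ⟨K0, hM⟩ := min_align hCl hAl
  obtain ⟨c0, k0, hC0⟩ := hCu K0
  obtain ⟨c1, k1, hC1⟩ := hCu K1
  refine ⟨9 + c0 + c1 + c1, (kT + (17 + (17 + k1))) + (68 + ((68 + (68 + (17 + (17 + k0)))) +
    (kT + (17 + (17 + k1))))), K0, ?_⟩
  intro V _ G S I h Wo hWo p y y' A B F al be s yA yB m P Q
  have pH := s.uH
  have c := m.1
  obtain ⟨g₁, x, g₂, dd, e1, e2, e3, e4, nA⟩ := hPos V G S I h p A B 200 F al be 25 s c P (by omega)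
  obtain ⟨g₁', x', g₂', dd', e1', e2', e3', e4', nB⟩ :=
    hPos V G S I h p B A 200 _ be al 97 s.symm c.rev Q.rev (by omega)
  have d := sdoor_of s dd (c.nl.mem 25 (by omega)) e1 e2 e3
  have d' := sdoor_of s.symm dd' (c.nr.mem 97 (by omega)) e1' e2' e3'
  obtain ⟨w₀, w0w, w0B, w01, w02⟩ := Q.exists_white c.nr s.symm (i := 1) (by omega)
  obtain ⟨w₇, w7w, w7A, w71, w72⟩ := P.exists_white c.nl s (i := 169) (by omega)
  have gA := d.g2A s
  have gB := d'.g2A s.symm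
  have g25 : g₂ ∈ h.Sub p (al 25) := h.sub_trans pH e1 (h.sub_trans pH e2 e3)
  have g97 : g₂' ∈ h.Sub p (be 97) := h.sub_trans pH e1' (h.sub_trans pH e2' e3')
  have y1 : al 1 ∈ h.Sub p y :=
    c.deep s (i := 0) (by omega) (by omega) (m.2.1 0 (by omega)).1 (m.2.1 1 (by omega)).1
  have y1' : be 1 ∈ h.Sub p y' :=
    c.deep_b s (i := 0) (by omega) (by omega) (m.2.1 0 (by omega)).2 (m.2.1 1 (by omega)).2
  have y25 : al 25 ∈ h.SubO p y := P.node_subO c.nl s y1 (by omega) (by omega)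
  have y97 : be 97 ∈ h.SubO p y' := Q.node_subO c.nr s.symm y1' (by omega) (by omega)
  have w7g : w₇ ∈ h.Sub p g₂ :=
    h.sub_trans pH e4 (h.sub_trans pH (c.nl.desc 74 169 (by omega) (by omega)) w71)
  -- the main class
  have n0 := hM (t := Finset.Ico 171 185) s yA yB m w7A gB
    (P.node_subO c.nl s w72 (by omega) (by omega))
    (h.sub_trans pH e4' (c.nr.desc 146 199 (by omega) (by omega)))
    (fun k hk => by have := (Finset.mem_Ico.1 hk).2; omega) (by simp)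
    (fun k hk => by
      obtain ⟨k1, k2⟩ := Finset.mem_Ico.1 hk
      exact ⟨h.sub_trans pH w72 (c.nl.top_le s (by omega) (by omega)),
        h.sub_trans pH e4' (c.nr.top_le s.symm (by omega) (by omega))⟩)
  -- the wall
  obtain ⟨CH, c1', c2', lowC, K, cK, pK, kA, kB, kx, kx', kC, aIO, clo, wall, ins⟩ :=
    two_doors hW (C := {p, g₁, x, g₂, g₁', x', g₂'}) s d d' (by simp)
  set C : Finset V := {p, g₁, x, g₂, g₁', x', g₂'} with hCdef
  -- the cleanups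
  have D0H : ((insert w₀ (insert w₇ C) : Finset V) : Set V) ⊆ HH S I := by
    intro z hz
    rcases Finset.mem_insert.1 hz with e | hz
    · exact e ▸ s.symm.subset_H w0B
    rcases Finset.mem_insert.1 hz with e | hz
    · exact e ▸ s.subset_H w7A
    · exact CH hz
  have CD0 : C ⊆ insert w₀ (insert w₇ C) :=
    (Finset.subset_insert _ _).trans (Finset.subset_insert _ _)
  have pC : p ∈ C := by simp [hCdef]
  obtain ⟨D1, s1, H1, r1, f1⟩ := hC0 V G S I h Wo hWo p A B _ _ s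
    (fun F hF => ⟨s.sub_subset yA hF.1, s.symm.sub_subset yB hF.2.1⟩) n0 D0H (CD0 pC)
  obtain ⟨D2, s2, H2, r2, f2⟩ := hC1 V G S I h Wo hWo g₂ _ _ _ D1 (d.sides s)
    (fun F hF => ⟨hF.1, s.subset_H hF.2.1.1, fun c =>
      hF.2.1.2 (h.subO_subset_sub (d.sub_g2 s c))⟩) nA H1 (s1 (CD0 (by simp [hCdef])))
  obtain ⟨D3, s3, H3, r3, f3⟩ := hC1 V G S I h Wo hWo g₂' _ _ _ D2 (d'.sides s.symm)
    (fun F hF => ⟨hF.1, s.symm.subset_H hF.2.1.1, fun c =>
      hF.2.1.2 (h.subO_subset_sub (d'.sub_g2 s.symm c))⟩) nB H2 (s2 (s1 (CD0 (by simp [hCdef]))))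
  have D03 : insert w₀ (insert w₇ C) ⊆ D3 := s1.trans (s2.trans s3)
  have card0 : (insert w₀ (insert w₇ C)).card ≤ 9 := by
    have a1 := Finset.card_insert_le w₀ (insert w₇ C)
    have a2 := Finset.card_insert_le w₇ C
    have a3 : C.card ≤ 7 := Finset.card_le_card_of_surjOn
      (s := Finset.range 7) (fun i => [p, g₁, x, g₂, g₁', x', g₂'].getD i p) (by
        intro z hz
        simp only [hCdef, Finset.coe_insert, Finset.coe_singleton, Set.mem_insert_iff,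
          Set.mem_singleton_iff] at hz
        rcases hz with e | e | e | e | e | e | e
        exacts [⟨0, by simp, e.symm⟩, ⟨1, by simp, e.symm⟩, ⟨2, by simp, e.symm⟩,
          ⟨3, by simp, e.symm⟩, ⟨4, by simp, e.symm⟩, ⟨5, by simp, e.symm⟩,
          ⟨6, by simp, e.symm⟩])
    omega
  have free : ∀ {X : Set V}, X ⊆ (insert w₀ (insert w₇ C) : Finset V) →
      (HH S I ∪ Wo D3)ᶜ ⊆ Free G S I X := fun hX =>
    hWo.compl_subset_free (hX.trans (Finset.coe_subset.2 D03))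
  have uw : ∀ {D : Finset V}, D ⊆ D3 → (HH S I ∪ Wo D3)ᶜ ⊆ (Wo D)ᶜ :=
    fun hD z hz c => hz (Or.inr (hWo.mono hD c))
  -- the four kinds of links
  obtain ⟨ρ, hρ, aρ⟩ := three_low s c P Q gA dd.w2 gB dd'.w2
    (h.sub_trans pH e4 (c.nl.desc 74 146 (by omega) (by omega))) e4' cK kA kB
  have tA := teeth_side (hT V G S I h g₁ x g₂ K) s d c1' (by simp [hCdef]) (by simp [hCdef])
    (fun z hz => hz.imp id fun e => s.symm.subO_subset gB e) cK kx kA pK kC clo ρ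
    (fun t => ⟨(hρ t).1.mono le_rfl (s.symm.subO_subset gB), (hρ t).2⟩) aρ
  have tB := teeth_side (hT V G S I h g₁' x' g₂' K) s.symm d' c2' (by simp [hCdef])
    (by simp [hCdef]) (fun z hz => hz.symm.imp id fun e => s.subO_subset gA e) cK kx' kB pK kC clo ρ
    (fun t => ⟨(hρ t).1.symm.mono le_rfl (s.subO_subset gA), (hρ t).2⟩) aρ
  have l1 := side_count hE (U := (HH S I ∪ Wo D3)ᶜ) s d kx kA
    (free (by rintro z (rfl | rfl | rfl | rfl) <;> simp [hCdef]))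
    (f2.mono (fun F _ hF => ⟨hF.1, hF.2.trans (uw s3)⟩) le_rfl) tA
  have l4 := side_count hE (U := (HH S I ∪ Wo D3)ᶜ) s.symm d' kx' kB
    (free (by rintro z (rfl | rfl | rfl | rfl) <;> simp [hCdef]))
    (f3.mono (fun F _ hF => ⟨hF.1, hF.2.trans (uw le_rfl)⟩) le_rfl) tB
  have l2 := (cross_fam hX s c P Q gA dd.w2 gB dd'.w2 (i := 74) (k := 97) (m := 146) e4 g97 e4'
    (by omega) (by omega) (by omega) (by omega)).nuP (U := (HH S I ∪ Wo D3)ᶜ)
    (free (by rintro z (rfl | rfl | rfl) <;> simp [hCdef]))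
  have l3 := cross_count hE (U := (HH S I ∪ Wo D3)ᶜ) s gA dd.w2 gB dd'.w2 w0B w7A
    (h.sub_trans pH (h.subO_subset_sub y25) g25) (h.sub_trans pH y1' w01)
    (free (by rintro z (rfl | rfl | rfl | rfl | rfl) <;> simp [hCdef]))
    (cross_fam hX s.symm c.rev Q.rev P.rev w0B w0w gA dd.w2 (i := 2) (k := 25) (m := 74) w02 g25 e4
      (by omega) (by omega) (by omega) (by omega))
    (cross_fam hX s.symm c.rev Q.rev P.rev gB dd'.w2 w7A w7w (i := 146) (k := 169) (m := 170) e4'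
      w71 w72 (by omega) (by omega) (by omega) (by omega))
    (f1.mono (fun F _ hF => ⟨hF.1, hF.2.trans (uw (s2.trans s3))⟩) le_rfl)
  have lowIn : h.SubO p g₂ ∪ h.SubO p g₂' ⊆ HC G S I C \ K := fun z hz =>
    ⟨lowC hz, fun c => hz.elim (kA.notMem c) (kB.notMem c)⟩
  refine ⟨C, D3, HC G S I C \ K, HC G S I C ∩ K, x, x', ⟨pC, CD0.trans D03, H3, by omega, d.xA s,
    d'.xA s.symm, Set.sdiff_union_inter _ _, aIO, ins, NuP.nuLe ?_⟩, ?_, n0.mono ?_ le_rfl⟩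
  · refine (l1.or (l2.or (l3.or l4))).imp ?_
    rintro Y cY hY ⟨tI, tO⟩
    have tL := wall Y cY (hY.trans (free (Finset.coe_subset.2 CD0))) tI tO
    obtain ⟨v, hv, z, ⟨zC, zK⟩, e⟩ := tO
    rcases s.mem_or zC.1 (fun e' => zC.2.1 (e' ▸ pC)) with zA | zB
    · rcases touch_union_right.1 tL with t | t
      · exact Or.inl ⟨⟨v, hv, z, ⟨zK, zA⟩, e⟩, t⟩
      · exact Or.inr (Or.inl ⟨⟨v, hv, z, ⟨zA, d.not_mem_sub kx kA zK⟩, e⟩, t⟩)
    · rcases touch_union_right.1 tL with t | t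
      · exact Or.inr (Or.inr (Or.inl ⟨⟨v, hv, z, ⟨zB, d'.not_mem_sub kx' kB zK⟩, e⟩, t⟩))
      · exact Or.inr (Or.inr (Or.inr ⟨⟨v, hv, z, ⟨zK, zB⟩, e⟩, t⟩))
  · have a1 := h.depth_lt pH (h.sub_subset_subO pH y25 (h.sub_trans pH e1 e2))
    have a2 := h.depth_lt pH (h.sub_subset_subO pH y97 (h.sub_trans pH e1' e2'))
    omega
  · rintro E eE ⟨a1, a2, a3⟩
    refine ⟨a1, a2, fun c => eE.a_notMem a3 ?_, fun c => eE.b_notMem a3 ?_⟩
    · rcases Setup.mem_sub_cases (h.sub_trans pH w7g c) with e | e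
      · exact Or.inl (by simp [e, hCdef])
      · exact Or.inr (lowIn (Or.inl e))
    · rcases Setup.mem_sub_cases c with e | e
      · exact Or.inl (by simp [e, hCdef])
      · exact Or.inr (lowIn (Or.inr e))

end Pool.Agent.Ehf
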