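import Pool.Agent.MP_3ad207_lc.H56.Inst
import Pool.Agent.MP_3ad207_lc.H56.SC12
import Pool.Agent.MP_3ad207_lc.H6.GuardMain
import Pool.Agent.MP_3ad207_lc.H6.Flip
import Pool.Agent.MP_3ad207_lc.H6.Bal
import Pool.Agent.MP_3ad207_lc.H6.EarOf
import Pool.Agent.MP_3ad207_lc.H6.Pos0
import Pool.Agent.MP_3ad207_lc.H82.Pos
import Pool.Agent.MP_3ad207_lc.H82.Gate
import Pool.Agent.MP_3ad207_lc.H82.Cross
import Pool.Agent.MP_3ad207_lc.H82.Wall
import Pool.Agent.MP_3ad207_lc.H88.Star
import Pool.Agent.MP_3ad207_lc.H24.Base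
import Pool.Agent.MP_3ad207_lc.H24.Teeth
import Pool.Agent.MP_3ad207_lc.H45.Align
import Pool.Agent.MP_3ad207_lc.H60.Clean
import Pool.Agent.MP_3ad207_lc.H15.Side
import Pool.Agent.MP_3ad207_lc.H46.Fan
import Pool.Agent.MP_3ad207_lc.H43.Ladder

/-! The structural theorem, assembled. -/

set_option autoImplicit false

namespace Pool.Agent.Ehf

theorem mainAll : MainStmt := by
  have hX := xStmt
  have hCl := cleanStmt sideStmt hX
  have hBr := branchStmt (toothStmt hX) cmpStmt
  have hAl := alignStmt hBr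
  have hPos := posStmt_of (pos0Stmt hCl triStmt baseStmt hAl) crossStmt
  have hL := ladderStmt hPos wallStmt teethStmt crossStmt hCl cleanupStmt earOfStmt hAl
  have hF := fanStmt cmpStmt triStmt baseStmt wallStmt teethStmt teeth2Stmt crossStmt hCl hBr
  exact mainStmt_of_width sc1Stmt sc2Stmt
    (widthStmt_of_lin starStmt (linStmt_of earOfStmt hCl (gateStmt hL hF)))


end Pool.Agent.Ehf
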