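import Pool.Agent.MP_3ad207_lc.H43.LinBasic
import Pool.Agent.MP_3ad207_lc.H24.Zone

/-! The ladder gate, first part: counting links, doors on a side, alignment by minimality. -/

set_option autoImplicit false

namespace Pool.Agent.Ehf

/-- at most `k` pairwise anticomplete connected subsets of `U` have the property `P` -/
def NuP {V : Type*} (G : SimpleGraph V) (U : Set V) (P : Set V → Prop) (k : ℕ) : Prop :=
  ∀ s : Finset (Set V), AFam G s id → (∀ Y ∈ s, Y ⊆ U ∧ P Y) → s.card ≤ k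

section nup

variable {V : Type} {G : SimpleGraph V} {S I U : Set V} {P Q : Set V → Prop} {k l : ℕ}

theorem NuP.or (h1 : NuP G U P k) (h2 : NuP G U Q l) : NuP G U (fun Y => P Y ∨ Q Y) (k + l) := by
  classical
  intro s hs hY
  have a := h1 (s.filter P) (hs.mono (Finset.filter_subset _ _)) fun Y hm =>
    ⟨(hY Y (Finset.mem_filter.1 hm).1).1, (Finset.mem_filter.1 hm).2⟩
  have b := h2 (s.filter fun Y => ¬ P Y) (hs.mono (Finset.filter_subset _ _)) fun Y hm =>
    ⟨(hY Y (Finset.mem_filter.1 hm).1).1,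
      (hY Y (Finset.mem_filter.1 hm).1).2.resolve_left (Finset.mem_filter.1 hm).2⟩
  have := Finset.card_filter_add_card_filter_not (s := s) P
  omega

theorem NuP.imp (h1 : NuP G U P k) (hq : ∀ Y, Conn G Y → Y ⊆ U → Q Y → P Y) : NuP G U Q k :=
  fun s hs hY => h1 s hs fun Y hm => ⟨(hY Y hm).1, hq Y (hs.1 Y hm) (hY Y hm).1 (hY Y hm).2⟩

theorem NuLe.nuP {U' A B : Set V} (h1 : NuLe G U' A B k) (hU : U ⊆ U') :
    NuP G U (fun Y => Touch G Y A ∧ Touch G Y B) k := h1.mono hU le_rfl le_rfl le_rfl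

theorem NuP.nuLe {A B : Set V} (h1 : NuP G U (fun Y => Touch G Y A ∧ Touch G Y B) k) :
    NuLe G U A B k := h1

theorem EHF.nuP_three [Finite V] (hG : EHF G) {X₁ X₂ X₃ : Set V} (c1 : Conn G X₁) (c2 : Conn G X₂)
    (c3 : Conn G X₃) (a12 : Anti G X₁ X₂) (a13 : Anti G X₁ X₃) (a23 : Anti G X₂ X₃) :
    NuP G U (fun Y => Touch G Y X₁ ∧ Touch G Y X₂ ∧ Touch G Y X₃) 17 :=
  fun _ hs hY => hG.k3 c1 c2 c3 a12 a13 a23 hs fun Y hm => (hY Y hm).2

theorem Setup.Few.nuP {h : Setup G S I} {E : Ear V → Prop} (n : h.Few E k) :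
    NuP G U (fun Y => ∃ F : Ear V, h.IsEar F ∧ F.set ⊆ Y ∧ E F) k :=
  fun _ hs hY => n.card_le hs fun Y hm => (hY Y hm).2

end nup

namespace Setup

variable {V : Type*} {G : SimpleGraph V} {S I : Set V}

/-- a door that descends from `g₁` to `g₂` on the side `A` of the root `p` -/
structure SDoor (h : Setup G S I) (p : V) (A : Set V) (g₁ x g₂ : V) : Prop where
  door : h.Door g₁ x g₂
  gA : g₁ ∈ A
  c1 : h.Child p g₁ x
  c2 : h.Child p x g₂

variable {h : Setup G S I} {p g₁ x g₂ : V} {A B : Set V}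

theorem SDoor.xA (d : h.SDoor p A g₁ x g₂) (s : h.Sides p A B) : x ∈ A :=
  s.sub_subset d.gA d.c1.mem_sub

theorem SDoor.g2A (d : h.SDoor p A g₁ x g₂) (s : h.Sides p A B) : g₂ ∈ A :=
  s.sub_subset (d.xA s) d.c2.mem_sub

theorem SDoor.subO_g1 (d : h.SDoor p A g₁ x g₂) (s : h.Sides p A B) :
    h.SubO p g₁ = h.Sub p x := h.white_subO_eq s.uH d.door.w1 (s.ne d.gA) d.c1

theorem SDoor.sub_g2 (d : h.SDoor p A g₁ x g₂) (s : h.Sides p A B) :
    h.Sub p g₂ ⊆ h.SubO p g₁ :=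
  ((d.c2.sub_subset s.uH).trans h.subO_subset_sub).trans (d.c1.sub_subset s.uH)

theorem SDoor.root_g2 (d : h.SDoor p A g₁ x g₂) (s : h.Sides p A B) :
    h.SubO x g₂ = h.SubO p g₂ := by
  unfold SubO
  rw [d.c2.sub_eq_root s.uH]

theorem SDoor.root_g1 (d : h.SDoor p A g₁ x g₂) (s : h.Sides p A B) :
    h.SubO x g₁ = HH S I \ h.Sub p g₁ :=
  (h.white_compl_sub_root s.uH d.door.w1 (s.ne d.gA) d.c1.mem_subO).2

theorem SDoor.sides (d : h.SDoor p A g₁ x g₂) (s : h.Sides p A B) :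
    h.Sides g₂ (h.SubO p g₂) (HH S I \ h.Sub p g₂) :=
  h.sides_of_white s.uH d.door.w2 (s.ne (d.g2A s))

theorem mem_sub_cases {u v z : V} (hz : z ∈ h.Sub u v) : z = v ∨ z ∈ h.SubO u v := by
  by_cases e : z = v
  · exact Or.inl e
  · exact Or.inr (h.mem_subO.2 ⟨hz, e⟩)

/-- a set anticomplete to the black of the door and to the lower part misses the lower white -/
theorem SDoor.not_mem_sub (d : h.SDoor p A g₁ x g₂) {K : Set V} (kx : Anti G K {x})
    (kl : Anti G K (h.SubO p g₂)) {v : V} (hv : v ∈ K) : v ∉ h.Sub p g₂ := by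
  intro c
  rcases mem_sub_cases c with rfl | c
  · exact kx.not_adj hv rfl d.door.a2.symm
  · exact kl.notMem hv c

/-- a subtree below a child `w` of `x` survives -/
theorem SDoor.subO_subset_HC (d : h.SDoor p A g₁ x g₂) (s : h.Sides p A B) {C : Finset V}
    (hC : ∀ v ∈ C, v = p ∨ v = g₁ ∨ v = x ∨ v = g₂ ∨ v ∈ B) {w : V} (hw : h.Child p x w) :
    h.SubO p w ⊆ HC G S I C := by
  intro z hz
  have wA : w ∈ A := s.sub_subset (d.xA s) hw.mem_sub
  have zA : z ∈ A := s.subO_subset wA hz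
  have zx : z ∈ h.SubO p x := hw.sub_subset s.uH (h.subO_subset_sub hz)
  refine ⟨s.subset_H zA, fun c => ?_, fun y hy hb a => ?_⟩
  · rcases hC z c with e | e | e | e | e
    · exact s.ne zA e
    · exact d.c1.not_mem s.uH (e ▸ h.subO_subset_sub zx)
    · exact (h.mem_subO.1 zx).2 e
    · have := hw.eq_of_mem s.uH d.c2 (h.subO_subset_sub hz)
        (by rw [e]; exact h.self_mem_sub s.uH d.c2.mem_H)
      exact (h.mem_subO.1 hz).2 (e.trans this.symm)
    · exact s.not_mem_right zA e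
  · rcases hC y hy with e | e | e | e | e
    · exact not_white_of_black hb (e ▸ s.white)
    · exact not_white_of_black hb (e ▸ d.door.w1)
    · exact (h.anti_single_subO s.uH d.c1.mem_H (hw.not_mem s.uH)).not_adj rfl hz (e ▸ a.symm)
    · exact not_white_of_black hb (e ▸ d.door.w2)
    · exact s.anti.not_adj zA e a

/-- a white neighbour of `x` other than `g₁` is a child -/
theorem SDoor.child (d : h.SDoor p A g₁ x g₂) (s : h.Sides p A B) {w : V} (hw : w ∈ S \ I)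
    (a : G.Adj x w) (hne : w ≠ g₁) : h.Child p x w :=
  (h.nbr_cases s.uH d.c1.mem_H (white_mem_HH hw) a).resolve_right fun c =>
    hne (c.2.trans (d.c1.par_eq s.uH))

end Setup

/-- links from the part of `K` on the side `A` to the part below the door of that side -/
theorem side_count (hE : EarOfStmt) {V : Type} [Finite V] {G : SimpleGraph V} {S I : Set V}
    {h : Setup G S I} {p g₁ x g₂ : V} {A B K U : Set V} {kA kT : ℕ} (s : h.Sides p A B)
    (d : h.SDoor p A g₁ x g₂) (kx : Anti G K {x}) (kl : Anti G K (h.SubO p g₂))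
    (hU : U ⊆ Free G S I {p, g₁, x, g₂})
    (fA : h.Few (fun F => (F.a ∈ h.SubO p g₂ ∧ F.b ∈ A \ h.Sub p g₁ ∧ Anti G F.set (B ∪ {p})) ∧
      F.set ⊆ U) kA)
    (fT : NuLe G (Free G S I {g₁, x, g₂}) (K ∩ (HH S I \ (h.Sub x g₁ ∪ h.Sub x g₂)))
      (h.SubO x g₂) kT) :
    NuP G U (fun Y => Touch G Y (K ∩ A) ∧ Touch G Y (h.SubO p g₂)) (kT + (17 + (17 + kA))) := by
  have pH := s.uH
  have cU : Conn G (A \ h.Sub p g₁) := s.conn_diff_white d.gA d.door.w1
  have cL : Conn G (h.SubO p g₂) := (d.sides s).cL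
  have cM : Conn G (h.Sub p x \ h.Sub p g₂) := h.conn_sub_diff pH d.c1.mem_H (d.c2.not_mem pH)
  have lg : h.SubO p g₂ ⊆ h.SubO p g₁ := h.subO_subset_sub.trans (d.sub_g2 s)
  have aUL : Anti G (A \ h.Sub p g₁) (h.SubO p g₂) := s.anti_diff.symm.mono le_rfl lg
  have n1 := h.ehf.nuP_three (U := U) cU cL s.cR aUL (s.anti.mono Set.sdiff_subset le_rfl)
    (s.anti.mono (s.subO_subset (d.g2A s)) le_rfl)
  have n2 := h.ehf.nuP_three (U := U) cU cL cM aUL
    (s.anti_diff.symm.mono le_rfl (by rw [d.subO_g1 s]; exact Set.sdiff_subset))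
    ((h.anti_subO_compl pH).mono le_rfl fun z hz => ⟨h.sub_subset_H hz.1, hz.2⟩)
  have n0 := fT.nuP (U := U) (hU.trans (free_mono (Set.subset_insert _ _)))
  refine (n0.or (n1.or (n2.or (fA.nuP (U := U))))).imp ?_
  rintro Y cY hY ⟨t1, t2⟩
  by_cases tU : Touch G Y (A \ h.Sub p g₁)
  · refine Or.inr ?_
    by_cases tB : Touch G Y B
    · exact Or.inl ⟨tU, t2, tB⟩
    by_cases tM : Touch G Y (h.Sub p x \ h.Sub p g₂)
    · exact Or.inr (Or.inl ⟨tU, t2, tM⟩)
    refine Or.inr (Or.inr ?_)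
    rw [not_touch] at tB tM
    have aC : Anti G Y {p, g₁, x, g₂} := anti_of_free (hY.trans hU) (by
      rintro z (rfl | rfl | rfl | rfl)
      exacts [pH, s.subset_H d.gA, d.c1.mem_H, d.c2.mem_H])
    obtain ⟨F, eF, sF, ha, hb⟩ := hE V G S I h g₂ _ _ Y (d.sides s) cY
      ((hY.trans hU).trans (free_mono (by simp))) t2
      (tU.mono le_rfl fun z hz => ⟨s.subset_H hz.1, fun c =>
        hz.2 (h.subO_subset_sub (d.sub_g2 s c))⟩)
    have bC := eF.b_notMem (aC.mono sF le_rfl)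
    have bA : F.b ∈ A := (s.mem_or eF.bH fun e => bC (Or.inl e)).resolve_right
      (eF.b_notMem (tB.mono sF le_rfl))
    refine ⟨F, eF, sF, ⟨ha, ⟨bA, fun c => ?_⟩, (tB.mono sF le_rfl).union_right
      (aC.mono sF (by simp))⟩, sF.trans hY⟩
    rcases Setup.mem_sub_cases c with e | e
    · exact bC (Or.inr (Or.inl e))
    · rw [d.subO_g1 s] at e
      exact eF.b_notMem (tM.mono sF le_rfl) ⟨e, hb.2⟩
  · refine Or.inl ⟨?_, by rw [d.root_g2 s]; exact t2⟩
    obtain ⟨v, hv, z, ⟨zK, zA⟩, e⟩ := t1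
    refine ⟨v, hv, z, ⟨zK, s.subset_H zA, ?_⟩, e⟩
    have z1 : z ∈ h.Sub p g₁ := by_contra fun c => tU ⟨v, hv, z, ⟨zA, c⟩, e⟩
    rintro (c | c)
    · rw [← d.c1.compl_sub pH] at c
      rcases Setup.mem_sub_cases z1 with e' | e'
      · exact kx.not_adj zK rfl (e' ▸ d.door.a1.symm)
      · exact c.2 (d.subO_g1 s ▸ e')
    · rw [d.c2.sub_eq_root pH] at c
      exact d.not_mem_sub kx kl zK c

/-- (X) counted, with both bundles taken from a clean family -/
theorem cross_fam (hX : CrossStmt) {V : Type} [Finite V] {G : SimpleGraph V} {S I : Set V}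
    {h : Setup G S I} {u ga gb : V} {L R : Set V} {n : ℕ} {F : ℕ → Ear V} {al be : ℕ → V}
    (s : h.Sides u L R) (c : h.Clean u L R n F al be)
    (P : h.Spread u n (fun i => (F i).set) al) (Q : h.Spread u n (fun i => (F i).set) be)
    (ha : ga ∈ L) (wa : ga ∈ S \ I) (hb : gb ∈ R) (wb : gb ∈ S \ I) {i k m : ℕ}
    (h1 : al i ∈ h.Sub u ga) (h2 : gb ∈ h.Sub u (be k)) (h3 : be m ∈ h.Sub u gb)
    (ik : i + 3 < k) (kn : k < n) (im : i + 3 ≤ m) (mn : m + 3 < n) :
    NuLe G (Free G S I {u, ga, gb}) (L \ h.Sub u ga) (h.SubO u gb) 68 := by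
  refine hX V G S I h u ga gb L R (fun t => (F (i + 1 + t)).set) (fun t => (F (m + 1 + t)).set)
    s ha wa hb wb (fun t => ?_) (fun t => ?_) (fun t t' hne => ?_) (fun t t' hne => ?_)
    fun t t' => ?_
  · have := t.2
    exact (c.isEar (by omega)).joins_up s ha (c.b_mem s (by omega))
      (P.top_subO c.nl s h1 (by omega) (by omega)) (Q.anti_sub s.uH h2 (by omega) kn)
  · have := t.2
    exact (c.isEar (by omega)).joins_low s ha hb (P.top_subO c.nl s h1 (by omega) (by omega))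
      (Q.top_subO c.nr s.symm h3 (by omega) (by omega))
  · have := t.2
    have := t'.2
    exact c.anti (by omega) (by omega) fun e => hne (Fin.ext (by omega))
  · have := t.2
    have := t'.2
    exact c.anti (by omega) (by omega) fun e => hne (Fin.ext (by omega))
  · have := t.2
    have := t'.2
    exact c.anti (by omega) (by omega) (by omega)

/-- (ALIGN) together with the minimality of the family -/
theorem min_align (hC : CleanStmt) (hA : AlignStmt) : ∃ K : ℕ, ∀ {V : Type} [Finite V]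
    {G : SimpleGraph V} {S I : Set V} {h : Setup G S I} {p y y' oA oB : V} {A B : Set V}
    {F : ℕ → Ear V} {al be : ℕ → V} {t : Finset ℕ}, h.Sides p A B → y ∈ A → y' ∈ B →
    h.MinFam p A B y y' F al be → oA ∈ A → oB ∈ B → al 199 ∈ h.SubO p oA →
    be 199 ∈ h.Sub p oB → (∀ k ∈ t, k < 200) → 14 ≤ t.card →
    (∀ k ∈ t, (F k).a ∈ h.Sub p oA ∧ (F k).b ∈ h.Sub p oB) →
    h.NoGood (fun E => E.a ∈ h.Sub p y ∧ E.b ∈ h.Sub p y' ∧ E.a ∉ h.Sub p oA ∧
      E.b ∉ h.Sub p oB) K := by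
  obtain ⟨E, hA⟩ := hA
  obtain ⟨N, hC⟩ := hC (200 + E)
  refine ⟨N, ?_⟩
  intro V _ G S I h p y y' oA oB A B F al be t s yA yB m hoA hoB h1 h2 ht htc hρ ι s' F' g hF'
  by_contra hN
  obtain ⟨φ, al', be', hφ, c⟩ := hC V G S I h p A B ι s' F' s g
    (fun i hi => ⟨s.sub_subset yA (hF' i hi).1, s.symm.sub_subset yB (hF' i hi).2.1⟩)
    (not_lt.1 hN)
  have hJ : ∀ j ∈ Finset.Ico 199 (200 + E), j < 200 + E := fun j hj => (Finset.mem_Ico.1 hj).2
  have hc : E ≤ (Finset.Ico 199 (200 + E)).card := by rw [Nat.card_Ico]; omega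
  obtain ⟨j, hj, ej⟩ := hA V G S I h p oA oB A B (200 + E) _ al' be' _ t F s c hoA hoB hJ hc
    (fun j hj => (hF' _ (hφ j (hJ j hj))).2.2) (m.1.apart ht) htc hρ
  obtain ⟨j', hj', ej'⟩ := hA V G S I h p oB oA B A (200 + E) _ be' al' _ t (fun i => (F i).rev)
    s.symm c.rev hoB hoA hJ hc (fun j hj => (hF' _ (hφ j (hJ j hj))).2.2.symm)
    (m.1.apart ht).rev htc fun k hk => (hρ k hk).symm
  have a1 := h.depth_le s.uH
    (h.sub_trans s.uH (c.nl.desc_le s (Finset.mem_Ico.1 hj).1 (hJ j hj)) ej)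
  have a2 := h.depth_le s.uH
    (h.sub_trans s.uH (c.nr.desc_le s.symm (Finset.mem_Ico.1 hj').1 (hJ j' hj')) ej')
  have a3 := h.depth_lt s.uH h1
  have a4 := h.depth_le s.uH h2
  have := m.2.2 _ al' be' (c.mono (Nat.le_add_right _ _)) fun i hi =>
    ⟨(hF' _ (hφ i (by omega))).1, (hF' _ (hφ i (by omega))).2.1⟩
  omega

end Pool.Agent.Ehf
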