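import Pool.Agent.MP_3ad207_lc.H43.LadderA

/-! The ladder gate, second part: the wall between two doors. -/

set_option autoImplicit false

namespace Pool.Agent.Ehf

variable {V : Type} {G : SimpleGraph V} {S I : Set V} {h : Setup G S I} {p g₁ x g₂ : V}
  {A B K Low : Set V} {C : Finset V}

/-- the hypotheses of the teeth lemma at a door on the side `A` -/
theorem teeth_side {kT : ℕ}
    (hT : ∀ (ρ : Fin 3 → Set V), h.Door g₁ x g₂ → Conn G K → Anti G K {x} →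
      Anti G K (h.SubO x g₂) → Touch G K (h.SubO x g₁) →
      (∀ v ∈ K, v ∉ HH S I → ¬ G.Adj v g₁ ∧ ¬ G.Adj v g₂) →
      (∀ w ∈ S \ I, G.Adj x w → w ≠ g₁ → w ≠ g₂ → Touch G (h.SubO x w) K → h.SubO x w ⊆ K) →
      (∀ t, h.Joins (ρ t) (h.SubO x g₂) (h.SubO x g₁) ∧ Anti G (ρ t) K) →
      (∀ t t', t ≠ t' → Anti G (ρ t) (ρ t')) →
      NuLe G (Free G S I {g₁, x, g₂}) (K ∩ (HH S I \ (h.Sub x g₁ ∪ h.Sub x g₂))) (h.SubO x g₂) kT)
    (s : h.Sides p A B) (d : h.SDoor p A g₁ x g₂)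
    (hC : ∀ v ∈ C, v = p ∨ v = g₁ ∨ v = x ∨ v = g₂ ∨ v ∈ B) (m1 : g₁ ∈ C) (m2 : g₂ ∈ C)
    (hLow : ∀ z ∈ Low, z ∈ h.SubO p g₂ ∨ z ∈ B) (cK : Conn G K) (kx : Anti G K {x})
    (kl : Anti G K (h.SubO p g₂)) (pK : p ∈ K)
    (kC : ∀ v ∈ K, v ∉ HH S I → ¬ Sees G v (C : Set V))
    (clo : ∀ T, Conn G T → T ⊆ HC G S I C \ Low → Touch G T K → T ⊆ K) (ρ : Fin 3 → Set V)
    (hρ : ∀ t, h.Joins (ρ t) (h.SubO p g₂) B ∧ Anti G (ρ t) K)
    (aρ : ∀ t t', t ≠ t' → Anti G (ρ t) (ρ t')) :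
    NuLe G (Free G S I {g₁, x, g₂}) (K ∩ (HH S I \ (h.Sub x g₁ ∪ h.Sub x g₂))) (h.SubO x g₂) kT := by
  have pH := s.uH
  refine hT ρ d.door cK kx (by rw [d.root_g2 s]; exact kl) ?_
    (fun v hv hn => ⟨fun a => kC v hv hn ⟨g₁, m1, a⟩, fun a => kC v hv hn ⟨g₂, m2, a⟩⟩) ?_
    (fun t => ⟨?_, (hρ t).2⟩) aρ
  · rw [d.root_g1 s]
    exact Touch.of_mem pK ⟨pH, s.u_not_mem_sub d.gA⟩
  · intro w hw a n1 n2 t
    have cw := d.child s hw a n1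
    have e : h.SubO x w = h.SubO p w := by
      unfold Setup.SubO
      rw [cw.sub_eq_root pH]
    rw [e] at t ⊢
    have wA : w ∈ A := s.sub_subset (d.xA s) cw.mem_sub
    refine clo _ (h.conn_subO pH hw (s.ne wA)) (fun z hz => ⟨d.subO_subset_HC s hC cw hz,
      fun c => ?_⟩) t
    rcases hLow z c with c | c
    · exact n2 (cw.eq_of_mem pH d.c2 (h.subO_subset_sub hz) (h.subO_subset_sub c))
    · exact s.not_mem_right (s.subO_subset wA hz) c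
  · rw [d.root_g2 s, d.root_g1 s]
    exact (hρ t).1.mono le_rfl fun z hz => ⟨s.symm.subset_H hz, s.not_mem_sub d.gA hz⟩

/-- links from the upper part of `B` to the lower part of `A` -/
theorem cross_count (hE : EarOfStmt) [Finite V] {U : Set V} {g₂' w₀ w₇ y y' : V} {k : ℕ}
    (s : h.Sides p A B) (gA : g₂ ∈ A) (wA : g₂ ∈ S \ I) (gB : g₂' ∈ B) (wB : g₂' ∈ S \ I)
    (w0B : w₀ ∈ B) (w7A : w₇ ∈ A) (hy : g₂ ∈ h.Sub p y) (hy' : w₀ ∈ h.Sub p y')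
    (hU : U ⊆ Free G S I {p, g₂, g₂', w₀, w₇})
    (n1 : NuLe G (Free G S I {p, w₀, g₂}) (B \ h.Sub p w₀) (h.SubO p g₂) 68)
    (n2 : NuLe G (Free G S I {p, g₂', w₇}) (B \ h.Sub p g₂') (h.SubO p w₇) 68)
    (f : h.Few (fun F => (F.a ∈ h.Sub p y ∧ F.b ∈ h.Sub p y' ∧ F.a ∉ h.Sub p w₇ ∧
      F.b ∉ h.Sub p g₂') ∧ F.set ⊆ U) k) :
    NuP G U (fun Y => Touch G Y (B \ h.Sub p g₂') ∧ Touch G Y (h.SubO p g₂))
      (68 + (68 + (17 + (17 + k)))) := by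
  have pH := s.uH
  have P := s.pieces gA gB wA wB
  have m1 := n1.nuP (U := U) (hU.trans (free_mono (by
    rintro z (rfl | rfl | rfl) <;> simp)))
  have m2 := n2.nuP (U := U) (hU.trans (free_mono (by
    rintro z (rfl | rfl | rfl) <;> simp)))
  have m3 := h.ehf.nuP_three (U := U) P.c1 P.c3 P.c4 P.a13 P.a14 P.a34
  have m4 := h.ehf.nuP_three (U := U) P.c1 P.c2 P.c3 P.a12 P.a13 P.a23
  refine (m1.or (m2.or (m3.or (m4.or (f.nuP (U := U)))))).imp ?_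
  rintro Y cY hY ⟨t1, t2⟩
  by_cases a1 : Touch G Y (B \ h.Sub p w₀)
  · exact Or.inl ⟨a1, t2⟩
  by_cases a2 : Touch G Y (h.SubO p w₇)
  · exact Or.inr (Or.inl ⟨t1, a2⟩)
  by_cases a3 : Touch G Y (h.SubO p g₂')
  · exact Or.inr (Or.inr (Or.inl ⟨t2, t1, a3⟩))
  by_cases a4 : Touch G Y (A \ h.Sub p g₂)
  · exact Or.inr (Or.inr (Or.inr (Or.inl ⟨t2, a4, t1⟩)))
  refine Or.inr (Or.inr (Or.inr (Or.inr ?_)))
  rw [not_touch] at a1 a2 a3 a4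
  have aC : Anti G Y {p, g₂, g₂', w₀, w₇} := anti_of_free (hY.trans hU) (by
    rintro z (rfl | rfl | rfl | rfl | rfl)
    exacts [pH, s.subset_H gA, s.symm.subset_H gB, s.symm.subset_H w0B, s.subset_H w7A])
  obtain ⟨F, eF, sF, ha, hb⟩ := hE V G S I h p A B Y s cY
    ((hY.trans hU).trans (free_mono (by simp))) (t2.mono le_rfl (s.subO_subset gA))
    (t1.mono le_rfl Set.sdiff_subset)
  have aC' := aC.mono sF le_rfl
  refine ⟨F, eF, sF, ⟨?_, ?_, fun c => ?_, fun c => ?_⟩, sF.trans hY⟩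
  · exact h.sub_trans pH hy (by_contra fun c => eF.a_notMem (a4.mono sF le_rfl) ⟨ha, c⟩)
  · exact h.sub_trans pH hy' (by_contra fun c => eF.b_notMem (a1.mono sF le_rfl) ⟨hb, c⟩)
  · rcases Setup.mem_sub_cases c with e | e
    · exact eF.a_notMem aC' (by simp [e])
    · exact eF.a_notMem (a2.mono sF le_rfl) e
  · rcases Setup.mem_sub_cases c with e | e
    · exact eF.b_notMem aC' (by simp [e])
    · exact eF.b_notMem (a3.mono sF le_rfl) e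

/-- three members of the family below both doors miss `K` -/
theorem three_low [Finite V] {g₂' : V} {F : ℕ → Ear V} {al be : ℕ → V} (s : h.Sides p A B)
    (c : h.Clean p A B 200 F al be) (P : h.Spread p 200 (fun i => (F i).set) al)
    (Q : h.Spread p 200 (fun i => (F i).set) be) (gA : g₂ ∈ A) (wA : g₂ ∈ S \ I) (gB : g₂' ∈ B)
    (wB : g₂' ∈ S \ I) (h1 : al 146 ∈ h.Sub p g₂) (h2 : be 146 ∈ h.Sub p g₂') (cK : Conn G K)
    (k1 : Anti G K (h.SubO p g₂)) (k2 : Anti G K (h.SubO p g₂')) :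
    ∃ ρ : Fin 3 → Set V, (∀ t, h.Joins (ρ t) (h.SubO p g₂) (h.SubO p g₂') ∧ Anti G (ρ t) K) ∧
      ∀ t t', t ≠ t' → Anti G (ρ t) (ρ t') := by
  have Pc := s.pieces gA gB wA wB
  have hJ : ∀ i ∈ Finset.Ico 147 167, h.Joins (F i).set (h.SubO p g₂) (h.SubO p g₂') := by
    intro i hi
    obtain ⟨i1, i2⟩ := Finset.mem_Ico.1 hi
    exact (c.isEar (by omega)).joins_low s gA gB (P.top_subO c.nl s h1 (by omega) (by omega))
      (Q.top_subO c.nr s.symm h2 (by omega) (by omega))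
  have hA := (c.apart (t := Finset.Ico 147 167) fun i hi => by
    have := (Finset.mem_Ico.1 hi).2; omega).afam
  obtain ⟨s', hs', hc, ha⟩ := h.ehf.pure Pc.c1 Pc.c4 cK Pc.a14 k1.symm k2.symm hA
    fun i hi => ⟨(hJ i hi).tP, (hJ i hi).tQ⟩
  rw [Nat.card_Ico] at hc
  obtain ⟨φ, hφ, mφ⟩ := exists_enum s' (k := 3) (by omega)
  refine ⟨fun t => (F (φ t)).set, fun t => ⟨hJ _ (hs' (hφ t t.2)), ha _ (hφ t t.2)⟩,
    fun t t' hne => hA.2 _ (hs' (hφ t t.2)) _ (hs' (hφ t' t'.2)) fun e =>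
      hne (Fin.ext (Setup.inj_of_lt mφ _ _ t.2 t'.2 e))⟩

/-- the door given by the positioning lemma -/
theorem sdoor_of {v : V} (s : h.Sides p A B) (d : h.Door g₁ x g₂) (hv : v ∈ A)
    (h1 : g₁ ∈ h.Sub p v) (h2 : x ∈ h.Sub p g₁) (h3 : g₂ ∈ h.Sub p x) : h.SDoor p A g₁ x g₂ :=
  ⟨d, s.sub_subset hv h1, ⟨d.a1.symm, h2⟩, ⟨d.a2, h3⟩⟩

end Pool.Agent.Ehf
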