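import Pool.Agent.MP_3ad207_lc.H43.LinRev

/-! Neighbours of ears in the tree and the basic facts about clean families. -/

set_option autoImplicit false

namespace Pool.Agent.Ehf

variable {V : Type*} {G : SimpleGraph V} {S I : Set V}

namespace Setup

variable {h : Setup G S I} {u : V} {L R : Set V}

section ear

variable {F : Ear V}

/-- the neighbours of an ear over `u` lie below its tops -/
theorem IsEar.nbr_side (e : h.IsEar F) (s : h.Sides u L R) (ha : F.a ∈ L) (hb : F.b ∈ R) {i : ℕ}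
    (hi : i ≤ F.n) {x : V} (hx : x ∈ HH S I) (a : G.Adj (F.f i) x) :
    (i = 0 ∧ x ∈ h.Sub u F.a) ∨ (i = F.n ∧ x ∈ h.Sub u F.b) := by
  have := e.nbr i hi x hx a
  rwa [s.sub_root_eq ha hb, s.symm.sub_root_eq hb ha] at this

theorem IsEar.nbr_left (e : h.IsEar F) (s : h.Sides u L R) (ha : F.a ∈ L) (hb : F.b ∈ R) {i : ℕ}
    (hi : i ≤ F.n) {x : V} (hx : x ∈ L) (a : G.Adj (F.f i) x) : i = 0 ∧ x ∈ h.Sub u F.a :=
  (e.nbr_side s ha hb hi (s.subset_H hx) a).resolve_right fun c =>
    s.not_mem_right hx (s.symm.sub_subset hb c.2)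

theorem IsEar.nbr_right (e : h.IsEar F) (s : h.Sides u L R) (ha : F.a ∈ L) (hb : F.b ∈ R) {i : ℕ}
    (hi : i ≤ F.n) {x : V} (hx : x ∈ R) (a : G.Adj (F.f i) x) : i = F.n ∧ x ∈ h.Sub u F.b :=
  (e.nbr_side s ha hb hi (s.symm.subset_H hx) a).resolve_left fun c =>
    s.not_mem_right (s.sub_subset ha c.2) hx

/-- a vertex of the tree adjacent to a vertex of the ear lies below a top -/
theorem IsEar.mem_of_adj (e : h.IsEar F) (s : h.Sides u L R) (ha : F.a ∈ L) (hb : F.b ∈ R)
    {v x : V} (hv : v ∈ F.set) (hx : x ∈ HH S I) (a : G.Adj v x) :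
    x ∈ h.Sub u F.a ∨ x ∈ h.Sub u F.b := by
  obtain ⟨i, hi, rfl⟩ := Ear.mem_set.1 hv
  exact (e.nbr_side s ha hb hi hx a).imp And.right And.right

theorem IsEar.anti_of (e : h.IsEar F) (s : h.Sides u L R) (ha : F.a ∈ L) (hb : F.b ∈ R)
    {Z : Set V} (hZ : Z ⊆ HH S I) (h1 : ∀ z ∈ Z, z ∉ h.Sub u F.a)
    (h2 : ∀ z ∈ Z, z ∉ h.Sub u F.b) : Anti G F.set Z := fun v hv z hz =>
  ⟨fun c => e.notMem v hv (c ▸ hZ hz), fun a =>
    (e.mem_of_adj s ha hb hv (hZ hz) a).elim (h1 z hz) (h2 z hz)⟩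

theorem IsEar.anti_left (e : h.IsEar F) (s : h.Sides u L R) (ha : F.a ∈ L) (hb : F.b ∈ R)
    {Z : Set V} (hZ : Z ⊆ L) (h1 : ∀ z ∈ Z, z ∉ h.Sub u F.a) : Anti G F.set Z :=
  e.anti_of s ha hb (hZ.trans s.subset_H) h1 fun _ hz => s.symm.not_mem_sub hb (hZ hz)

theorem IsEar.anti_right (e : h.IsEar F) (s : h.Sides u L R) (ha : F.a ∈ L) (hb : F.b ∈ R)
    {Z : Set V} (hZ : Z ⊆ R) (h1 : ∀ z ∈ Z, z ∉ h.Sub u F.b) : Anti G F.set Z :=
  e.anti_of s ha hb (hZ.trans s.symm.subset_H) (fun _ hz => s.not_mem_sub ha (hZ hz)) h1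

theorem IsEar.anti_root (e : h.IsEar F) (s : h.Sides u L R) (ha : F.a ∈ L) (hb : F.b ∈ R) :
    Anti G F.set {u} :=
  e.anti_of s ha hb (Set.singleton_subset_iff.2 s.uH)
    (fun z hz => by rw [Set.mem_singleton_iff.1 hz]; exact s.u_not_mem_sub ha)
    fun z hz => by rw [Set.mem_singleton_iff.1 hz]; exact s.symm.u_not_mem_sub hb

/-- only the first vertex sees the left side -/
theorem IsEar.anti_tail_left (e : h.IsEar F) (s : h.Sides u L R) (ha : F.a ∈ L) (hb : F.b ∈ R) :
    Anti G (F.set \ {F.f 0}) L := by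
  rintro v ⟨hv, hne⟩ z hz
  refine ⟨fun c => e.notMem v hv (c ▸ s.subset_H hz), fun a => hne ?_⟩
  obtain ⟨i, hi, rfl⟩ := Ear.mem_set.1 hv
  rw [(e.nbr_left s ha hb hi hz a).1]
  rfl

/-- the other side together with the rest of the ear: connected and seen by the first vertex -/
theorem IsEar.conn_tail (e : h.IsEar F) (s : h.Sides u L R) (hb : F.b ∈ R) :
    Conn G (R ∪ (F.set \ {F.f 0})) ∧ Sees G (F.f 0) (R ∪ (F.set \ {F.f 0})) := by
  rcases Nat.eq_zero_or_pos F.n with h0 | h0
  · have : F.set \ {F.f 0} = ∅ := by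
      rw [Ear.set, h0, seg_self, Set.sdiff_self]
    rw [this, Set.union_empty]
    have eb := e.eb
    rw [h0] at eb
    exact ⟨s.cR, F.b, hb, eb⟩
  · have : F.set \ {F.f 0} = seg F.f 1 F.n := by
      ext v
      constructor
      · exact fun hv => seg_diff_first F.f 0 F.n hv
      · rintro ⟨k, h1, h2, rfl⟩
        exact ⟨F.f_mem h2, e.ip.ne h2 (Nat.zero_le _) (by omega)⟩
    rw [this]
    refine ⟨s.cR.un (e.ip.conn_seg h0 le_rfl)
      (Touch.of_adj hb (apply_mem_seg h0 le_rfl) e.eb.symm), F.f 1,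
      Or.inr (apply_mem_seg le_rfl h0), e.ip.adj_succ h0⟩

/-- an ear joins `P` and `Q` when its tops lie there and it misses what is below the tops
outside `P` and `Q` -/
theorem IsEar.joins_of (e : h.IsEar F) (s : h.Sides u L R) (ha : F.a ∈ L) (hb : F.b ∈ R)
    {P Q : Set V} (pa : F.a ∈ P) (qb : F.b ∈ Q) (h1 : Anti G F.set (h.Sub u F.a \ P))
    (h2 : Anti G F.set (h.Sub u F.b \ Q)) : h.Joins F.set P Q := by
  refine ⟨e.conn, e.notMem, e.touch_a pa, e.touch_b qb, fun v hv z hz =>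
    ⟨fun c => e.notMem v hv (c ▸ hz.1), fun a => ?_⟩⟩
  rcases e.mem_of_adj s ha hb hv hz.1 a with c | c
  · exact h1.not_adj hv ⟨c, fun d => hz.2 (Or.inl d)⟩ a
  · exact h2.not_adj hv ⟨c, fun d => hz.2 (Or.inr d)⟩ a

theorem anti_diff_of_subset {Y X P : Set V} (hX : X ⊆ P) : Anti G Y (X \ P) :=
  fun _ _ _ hz => (hz.2 (hX hz.1)).elim

/-- both tops lie strictly below given vertices -/
theorem IsEar.joins_low (e : h.IsEar F) (s : h.Sides u L R) {ga gb : V} (hga : ga ∈ L)
    (hgb : gb ∈ R) (pa : F.a ∈ h.SubO u ga) (qb : F.b ∈ h.SubO u gb) :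
    h.Joins F.set (h.SubO u ga) (h.SubO u gb) :=
  e.joins_of s (s.subO_subset hga pa) (s.symm.subO_subset hgb qb) pa qb
    (anti_diff_of_subset (h.sub_subset_subO s.uH pa))
    (anti_diff_of_subset (h.sub_subset_subO s.uH qb))

/-- the left top lies strictly below `ga` and the ear misses everything below `gb` -/
theorem IsEar.joins_up (e : h.IsEar F) (s : h.Sides u L R) {ga gb : V} (hga : ga ∈ L)
    (hb : F.b ∈ R) (pa : F.a ∈ h.SubO u ga) (hq : Anti G F.set (h.Sub u gb)) :
    h.Joins F.set (h.SubO u ga) (R \ h.Sub u gb) :=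
  e.joins_of s (s.subO_subset hga pa) hb pa ⟨hb, e.b_notMem hq⟩
    (anti_diff_of_subset (h.sub_subset_subO s.uH pa))
    (hq.mono le_rfl fun _ hz => by_contra fun c => hz.2 ⟨s.symm.sub_subset hb hz.1, c⟩)

/-- the mirror image of `IsEar.joins_up` -/
theorem IsEar.joins_up' (e : h.IsEar F) (s : h.Sides u L R) {ga gb : V} (hgb : gb ∈ R)
    (ha : F.a ∈ L) (pb : F.b ∈ h.SubO u gb) (hq : Anti G F.set (h.Sub u ga)) :
    h.Joins F.set (L \ h.Sub u ga) (h.SubO u gb) := by
  have := e.rev.joins_up s.symm hgb ha pb (gb := ga) (by simpa using hq)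
  simpa using this.symm

/-- both tops lie below given vertices -/
theorem IsEar.joins_sub (e : h.IsEar F) (s : h.Sides u L R) (ha : F.a ∈ L) (hb : F.b ∈ R)
    {P Q : Set V} (pa : h.Sub u F.a ⊆ P) (qb : h.Sub u F.b ⊆ Q) : h.Joins F.set P Q :=
  e.joins_of s ha hb (pa (h.self_mem_sub s.uH e.aH)) (qb (h.self_mem_sub s.uH e.bH))
    (anti_diff_of_subset pa) (anti_diff_of_subset qb)

end ear

section nodes

variable {n : ℕ} {a al : ℕ → V} {X : ℕ → Set V}

theorem Nodes.a_mem (N : h.Nodes u L n a al) (s : h.Sides u L R) {i : ℕ} (hi : i < n) : a i ∈ L :=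
  s.sub_subset (N.mem i hi) (N.top i hi)

theorem Nodes.desc_le (N : h.Nodes u L n a al) (s : h.Sides u L R) {i j : ℕ} (hij : i ≤ j)
    (hj : j < n) : al j ∈ h.Sub u (al i) := by
  rcases hij.eq_or_lt with rfl | h1
  · exact h.self_mem_sub s.uH (s.subset_H (N.mem i hj))
  · exact N.desc i j h1 hj

theorem Nodes.top_le (N : h.Nodes u L n a al) (s : h.Sides u L R) {i j : ℕ} (hij : i ≤ j)
    (hj : j < n) : a j ∈ h.Sub u (al i) :=
  h.sub_trans s.uH (N.desc_le s hij hj) (N.top j hj)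

theorem Spread.subO (P : h.Spread u n X al) (N : h.Nodes u L n a al) {i j : ℕ} (hij : i < j)
    (hj : j < n) : al j ∈ h.SubO u (al i) :=
  h.mem_subO.2 ⟨N.desc i j hij hj, (P i j hij hj).1⟩

/-- nodes after `i` lie strictly below every vertex above node `i` -/
theorem Spread.node_subO (P : h.Spread u n X al) (N : h.Nodes u L n a al) (s : h.Sides u L R)
    {o : V} {i j : ℕ} (ho : al i ∈ h.Sub u o) (hij : i < j) (hj : j < n) : al j ∈ h.SubO u o :=
  h.subO_subset_subO s.uH ho (P.subO N hij hj)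

/-- tops after `i` lie strictly below every vertex above node `i` -/
theorem Spread.top_subO (P : h.Spread u n X al) (N : h.Nodes u L n a al) (s : h.Sides u L R)
    {o : V} {i j : ℕ} (ho : al i ∈ h.Sub u o) (hij : i < j) (hj : j < n) : a j ∈ h.SubO u o :=
  h.sub_subset_subO s.uH (P.node_subO N s ho hij hj) (N.top j hj)

/-- members before `i` miss everything below a vertex below node `i` -/
theorem Spread.anti_sub (P : h.Spread u n X al) (hu : u ∈ HH S I) {o : V} {i j : ℕ}
    (ho : o ∈ h.Sub u (al i)) (hji : j < i) (hi : i < n) : Anti G (X j) (h.Sub u o) :=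
  (P j i hji hi).2.mono le_rfl (h.sub_trans hu ho)

/-- (WH) a white between two consecutive nodes of a spread side -/
theorem Spread.exists_white (P : h.Spread u n X al) (N : h.Nodes u L n a al) (s : h.Sides u L R)
    {i : ℕ} (hi : i + 1 < n) :
    ∃ o ∈ S \ I, o ∈ L ∧ o ∈ h.Sub u (al i) ∧ al (i + 1) ∈ h.Sub u o := by
  obtain ⟨o, ho, -, h1, h2, -⟩ := h.exists_white_anc s.uH (P.subO N (Nat.lt_succ_self i) hi)
  exact ⟨o, ho, s.sub_subset (N.mem i (by omega)) h1, h1, h2⟩

/-- the tops of a star are pairwise incomparable -/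
theorem Star.not_mem_sub (T : h.Star n a al) (N : h.Nodes u L n a al) (s : h.Sides u L R)
    {i j : ℕ} (hi : i < n) (hj : j < n) (hne : i ≠ j) : a j ∉ h.Sub u (a i) := by
  intro c
  have h1 : al i ∈ h.Sub u (a i) := h.hseg_subset_sub s.uH c ((T i j hi hj).2.2 hne)
  exact (T i j hi hj).2.1 (h.sub_antisymm s.uH (N.top i hi) h1)

/-- the branches of a star: the child of the centre above top `i` -/
theorem Star.exists_child (T : h.Star n a al) (N : h.Nodes u L n a al) (s : h.Sides u L R) :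
    ∃ w : ℕ → V, (∀ i, i < n → h.Child u (al 0) (w i) ∧ a i ∈ h.Sub u (w i)) ∧
      ∀ i j, i < n → j < n → i ≠ j → w i ≠ w j := by
  have key : ∀ i, i < n → h.Child u (al 0) (h.hpath (al 0) (a i) 1) ∧
      a i ∈ h.Sub u (h.hpath (al 0) (a i) 1) := by
    intro i hi
    have e : al 0 = al i := (T 0 i (by omega) hi).1
    rw [e]
    exact h.child_hpath s.uH (h.mem_subO.2 ⟨N.top i hi, (T i i hi hi).2.1⟩)
  refine ⟨fun i => h.hpath (al 0) (a i) 1, key, fun i j hi hj hne c => ?_⟩
  have c' : h.hpath (al 0) (a i) 1 = h.hpath (al 0) (a j) 1 := c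
  have h1 := (key j hj).2
  rw [← c'] at h1
  have h2 := h.hseg_subset_sub' s.uH (key i hi).2 h1 ((T i j hi hj).2.2 hne)
  rw [← (T 0 i (by omega) hi).1] at h2
  exact (key i hi).1.not_mem s.uH h2

end nodes

section clean

variable {n : ℕ} {F : ℕ → Ear V} {al be : ℕ → V}

theorem Clean.a_mem (c : h.Clean u L R n F al be) (s : h.Sides u L R) {i : ℕ} (hi : i < n) :
    (F i).a ∈ L := c.nl.a_mem s hi

theorem Clean.b_mem (c : h.Clean u L R n F al be) (s : h.Sides u L R) {i : ℕ} (hi : i < n) :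
    (F i).b ∈ R := c.nr.a_mem s.symm hi

/-- an earlier top is never below a later top -/
theorem Clean.a_not_mem (c : h.Clean u L R n F al be) (s : h.Sides u L R) {i j : ℕ} (hij : i < j)
    (hj : j < n) : (F i).a ∉ h.Sub u (F j).a := by
  rcases c.kl with P | T
  · exact (c.isEar (by omega)).a_notMem (P.anti_sub s.uH (c.nl.top j hj) hij hj)
  · exact T.not_mem_sub c.nl s hj (by omega) (by omega)

/-- an earlier member misses everything below a later top -/
theorem Clean.anti_sub_a (c : h.Clean u L R n F al be) (s : h.Sides u L R) {i j : ℕ} (hij : i < j)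
    (hj : j < n) : Anti G (F i).set (h.Sub u (F j).a) := by
  have hi : i < n := by omega
  rcases c.kl with P | T
  · exact P.anti_sub s.uH (c.nl.top j hj) hij hj
  · refine (c.isEar hi).anti_left s (c.a_mem s hi) (c.b_mem s hi) (s.sub_subset (c.a_mem s hj))
      fun z hz hz' => ?_
    rcases h.sub_total s.uH hz hz' with d | d
    · exact T.not_mem_sub c.nl s hj hi (by omega) d
    · exact T.not_mem_sub c.nl s hi hj (by omega) d

/-- (DEEP) -/
theorem Clean.deep (c : h.Clean u L R n F al be) (s : h.Sides u L R) {i j : ℕ} (hij : i < j)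
    (hj : j < n) {v : V} (h1 : (F i).a ∈ h.Sub u v) (h2 : (F j).a ∈ h.Sub u v) :
    al j ∈ h.Sub u v := by
  have hi : i < n := by omega
  rcases c.kl with P | T
  · rcases h.sub_total s.uH h2 (c.nl.top j hj) with d | d
    · exact d
    · exact absurd h1 ((c.isEar hi).a_notMem (P.anti_sub s.uH d hij hj))
  · exact h.hseg_subset_sub' s.uH h2 h1 ((T j i hj hi).2.2 (by omega))

theorem Clean.deep_b (c : h.Clean u L R n F al be) (s : h.Sides u L R) {i j : ℕ} (hij : i < j)
    (hj : j < n) {v : V} (h1 : (F i).b ∈ h.Sub u v) (h2 : (F j).b ∈ h.Sub u v) :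
    be j ∈ h.Sub u v := c.rev.deep s.symm hij hj h1 h2

theorem Clean.once_left (c : h.Clean u L R n F al be) (s : h.Sides u L R) {i j : ℕ} (hij : i < j)
    (hj : j < n) {x : V} (hx : x ∈ L) (h2 : Sees G x (F j).set) : ¬ Sees G x (F i).set := by
  obtain ⟨v, hv, a⟩ := h2
  obtain ⟨k, hk, rfl⟩ := Ear.mem_set.1 hv
  have := ((c.isEar hj).nbr_left s (c.a_mem s hj) (c.b_mem s hj) hk hx a.symm).2
  exact (c.anti_sub_a s hij hj).symm.not_sees this

/-- a vertex of the tree sees at most one member of a clean family -/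
theorem Clean.once (c : h.Clean u L R n F al be) (s : h.Sides u L R) {i j : ℕ} (hi : i < n)
    (hj : j < n) {x : V} (hx : x ∈ HH S I) (h1 : Sees G x (F i).set) (h2 : Sees G x (F j).set) :
    i = j := by
  rcases s.mem_cases hx with rfl | hL | hR
  · exact absurd h1 (((c.isEar hi).anti_root s (c.a_mem s hi) (c.b_mem s hi)).symm.not_sees rfl)
  · rcases lt_trichotomy i j with d | d | d
    · exact absurd h1 (c.once_left s d hj hL h2)
    · exact d
    · exact absurd h2 (c.once_left s d hi hL h1)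
  · rcases lt_trichotomy i j with d | d | d
    · exact absurd (by simpa using h1) (c.rev.once_left s.symm d hj hR (by simpa using h2))
    · exact d
    · exact absurd (by simpa using h2) (c.rev.once_left s.symm d hi hR (by simpa using h1))

end clean

end Setup

/-- not both sides of a clean family are stars -/
theorem clean_spread_of_star (hc : CmpStmt) {V : Type} [Finite V] {G : SimpleGraph V} {S I : Set V}
    {h : Setup G S I} {u : V} {L R : Set V} {n : ℕ} {F : ℕ → Ear V} {al be : ℕ → V}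
    (s : h.Sides u L R) (c : h.Clean u L R n F al be) (hn : 2 ≤ n)
    (T : h.Star n (fun i => (F i).a) al) : h.Spread u n (fun i => (F i).set) be := by
  refine c.kr.resolve_right fun T' => ?_
  have h0 : 0 < n := by omega
  have h1 : 1 < n := by omega
  rcases hc V G S I h u L R (F 0) (F 1) s (c.isEar h0) (c.isEar h1) (c.a_mem s h0) (c.b_mem s h0)
    (c.a_mem s h1) (c.b_mem s h1) (c.anti h0 h1 (by omega)) with (d | d) | (d | d)
  · exact T.not_mem_sub c.nl s h1 h0 (by omega) d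
  · exact T.not_mem_sub c.nl s h0 h1 (by omega) d
  · exact T'.not_mem_sub c.nr s.symm h1 h0 (by omega) d
  · exact T'.not_mem_sub c.nr s.symm h0 h1 (by omega) d

end Pool.Agent.Ehf
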