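import Pool.Agent.MP_3ad207_lc.H46.Spec5
import Pool.Agent.MP_3ad207_lc.H82.Tree

/-! Definitions for the non-star case: rooted subtrees, the two sides of a white, ears, good and
clean families of ears, gates. -/

set_option autoImplicit false

namespace Pool.Agent.Ehf

variable {V : Type*} {G : SimpleGraph V} {S I : Set V}

/-- a path `f 0, ..., f n` outside the tree with its two tops `a`, `b` in the tree -/
structure Ear (V : Type*) where
  f : ℕ → V
  n : ℕ
  a : V
  b : V

/-- the vertices of an ear -/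
def Ear.set (F : Ear V) : Set V := seg F.f 0 F.n

/-- the same ear, read backwards -/
def Ear.rev (F : Ear V) : Ear V := ⟨fun i => F.f (F.n - i), F.n, F.b, F.a⟩

namespace Setup

/-- the descendants of `v` (with `v`) in the tree rooted at `r` -/
def Sub (h : Setup G S I) (r v : V) : Set V := {x | x ∈ HH S I ∧ v ∈ h.hseg r x}

/-- the proper descendants of `v` -/
def SubO (h : Setup G S I) (r v : V) : Set V := h.Sub r v \ {v}

/-- `L` and `R` are the two components of the tree minus the white `u` -/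
structure Sides (h : Setup G S I) (u : V) (L R : Set V) : Prop where
  white : u ∈ S \ I
  cL : Conn G L
  cR : Conn G R
  anti : Anti G L R
  cover : L ∪ R = HH S I \ {u}

/-- An ear: an induced path outside the tree; its first vertex sees `a`, its last vertex sees `b`,
and every neighbour in the tree is a neighbour of the first vertex behind `a` or a neighbour of
the last vertex behind `b`. -/
structure IsEar (h : Setup G S I) (F : Ear V) : Prop where
  ip : IsIP G F.f F.n
  out : ∀ i, i ≤ F.n → F.f i ∉ HH S I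
  aH : F.a ∈ HH S I
  bH : F.b ∈ HH S I
  ea : G.Adj (F.f 0) F.a
  eb : G.Adj (F.f F.n) F.b
  nbr : ∀ i, i ≤ F.n → ∀ x ∈ HH S I, G.Adj (F.f i) x →
    (i = 0 ∧ x ∈ h.Sub F.b F.a) ∨ (i = F.n ∧ x ∈ h.Sub F.a F.b)

/-- the one-vertex ear `z` is the centre of a proper wheel whose rim is the one-vertex ear `t`
together with the tree path between its tops -/
def Covers (h : Setup G S I) (t z : Ear V) : Prop :=
  t.n = 0 ∧ z.n = 0 ∧ z.a ∈ h.hseg t.a t.b ∧ z.b ∈ h.hseg t.a t.b ∧
    ∃ x₁ ∈ h.hseg t.a t.b, ∃ x₂ ∈ h.hseg t.a t.b, ∃ x₃ ∈ h.hseg t.a t.b,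
      Anti G {x₁} {x₂} ∧ Anti G {x₁} {x₃} ∧ Anti G {x₂} {x₃} ∧
      G.Adj (z.f 0) x₁ ∧ G.Adj (z.f 0) x₂ ∧ G.Adj (z.f 0) x₃

/-- pairwise anticomplete ears -/
def Apart (h : Setup G S I) {ι : Type*} (s : Finset ι) (F : ι → Ear V) : Prop :=
  (∀ i ∈ s, h.IsEar (F i)) ∧ ∀ i ∈ s, ∀ j ∈ s, i ≠ j → Anti G (F i).set (F j).set

/-- pairwise anticomplete ears with different tops, none covering another -/
def Good (h : Setup G S I) {ι : Type*} (s : Finset ι) (F : ι → Ear V) : Prop :=
  h.Apart s F ∧ ∀ i ∈ s, ∀ j ∈ s, i ≠ j →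
    (F i).a ≠ (F j).a ∧ (F i).b ≠ (F j).b ∧ ¬ h.Covers (F i) (F j)

/-- every good family in the class `E` has fewer than `K` members -/
def NoGood (h : Setup G S I) (E : Ear V → Prop) (K : ℕ) : Prop :=
  ∀ (ι : Type) (s : Finset ι) (F : ι → Ear V), h.Good s F → (∀ i ∈ s, E (F i)) → s.card < K

/-- every anticomplete family in the class `E` has at most `K` members -/
def Few (h : Setup G S I) (E : Ear V → Prop) (K : ℕ) : Prop :=
  ∀ (ι : Type) (s : Finset ι) (F : ι → Ear V), h.Apart s F → (∀ i ∈ s, E (F i)) → s.card ≤ K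

/-- nodes `al i` on the side `L` above the tops `a i`, descending -/
structure Nodes (h : Setup G S I) (u : V) (L : Set V) (n : ℕ) (a al : ℕ → V) : Prop where
  mem : ∀ i, i < n → al i ∈ L
  top : ∀ i, i < n → a i ∈ h.Sub u (al i)
  desc : ∀ i j, i < j → j < n → al j ∈ h.Sub u (al i)

/-- the nodes descend strictly and every set misses everything below the later nodes -/
def Spread (h : Setup G S I) (u : V) (n : ℕ) (X : ℕ → Set V) (al : ℕ → V) : Prop :=
  ∀ i j, i < j → j < n → al j ≠ al i ∧ Anti G (X i) (h.Sub u (al j))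

/-- all nodes coincide and the tops lie in different branches below the node -/
def Star (h : Setup G S I) (n : ℕ) (a al : ℕ → V) : Prop :=
  ∀ i j, i < n → j < n → al i = al j ∧ a i ≠ al i ∧ (i ≠ j → al i ∈ h.hseg (a i) (a j))

/-- a clean family `F 0, ..., F (n-1)` of ears over the white `u`, with its nodes -/
structure Clean (h : Setup G S I) (u : V) (L R : Set V) (n : ℕ) (F : ℕ → Ear V)
    (al be : ℕ → V) : Prop where
  good : h.Good (Finset.range n) F
  same : (∀ i, i < n → (F i).n = 0) ∨ (∀ i, i < n → 0 < (F i).n)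
  nl : h.Nodes u L n (fun i => (F i).a) al
  nr : h.Nodes u R n (fun i => (F i).b) be
  kl : h.Spread u n (fun i => (F i).set) al ∨ h.Star n (fun i => (F i).a) al
  kr : h.Spread u n (fun i => (F i).set) be ∨ h.Star n (fun i => (F i).b) be

/-- `x` is a black of the tree, `g` and `g'` are two different white neighbours -/
structure Door (h : Setup G S I) (g x g' : V) : Prop where
  black : x ∈ I \ S
  w1 : g ∈ S \ I
  w2 : g' ∈ S \ I
  ne : g ≠ g'
  a1 : G.Adj x g
  a2 : G.Adj x g'

/-- a gate: the part of the tree that survives `C` is split into `In`, which lies below `y` and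
`y'`, and `Out`, with few links outside the set deleted by `D` -/
structure Gate (h : Setup G S I) (Wo : Finset V → Set V) (p : V) (A B : Set V) (cg kg : ℕ)
    (C D : Finset V) (In Out : Set V) (y y' : V) : Prop where
  pC : p ∈ C
  CD : C ⊆ D
  DH : (D : Set V) ⊆ HH S I
  card : D.card ≤ cg
  yA : y ∈ A
  yB : y' ∈ B
  cover : In ∪ Out = HC G S I C
  anti : Anti G In Out
  inside : ∀ x ∈ HH S I, x ∉ C → x ∉ Out → x ∈ h.Sub p y ∪ h.Sub p y'
  nu : NuLe G (HH S I ∪ Wo D)ᶜ In Out kg

/-- no black has marks in `a` different branches -/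
def NoStar (_h : Setup G S I) (M : Finset V) (a : ℕ) : Prop :=
  ∀ x ∈ I \ S, ∀ M' ⊆ M, ∀ w : V → V,
    (∀ p ∈ M', w p ∈ S \ I ∧ G.Adj x (w p) ∧ p ∈ comp G (HH S I \ {x}) (w p)) →
    Set.InjOn w (M' : Set V) → M'.card < a

/-- the family of size `200` has its tops below `y`, `y'` and the depth of its last nodes is
minimal among such clean families -/
def MinFam (h : Setup G S I) (p : V) (A B : Set V) (y y' : V) (F : ℕ → Ear V) (al be : ℕ → V) :
    Prop :=
  h.Clean p A B 200 F al be ∧ (∀ i, i < 200 → (F i).a ∈ h.Sub p y ∧ (F i).b ∈ h.Sub p y') ∧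
    ∀ (F' : ℕ → Ear V) (al' be' : ℕ → V), h.Clean p A B 200 F' al' be' →
      (∀ i, i < 200 → (F' i).a ∈ h.Sub p y ∧ (F' i).b ∈ h.Sub p y') →
      h.hlen p (al 199) + h.hlen p (be 199) ≤ h.hlen p (al' 199) + h.hlen p (be' 199)

/-- the conclusion of the gate theorem -/
def NextGate (h : Setup G S I) (Wo : Finset V → Set V) (p : V) (A B : Set V) (cg kg K : ℕ)
    (y y' : V) : Prop :=
  ∃ (C D : Finset V) (In Out : Set V) (x x' : V), h.Gate Wo p A B cg kg C D In Out x x' ∧
    h.hlen p y + h.hlen p y' < h.hlen p x + h.hlen p x' ∧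
    h.NoGood (fun F => F.a ∈ h.Sub p y ∧ F.b ∈ h.Sub p y' ∧ Anti G F.set ((C : Set V) ∪ In)) K

end Setup

end Pool.Agent.Ehf
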