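import Pool.Agent.MP_3ad207_lc.H43.LinSpec
import Pool.Agent.MP_3ad207_lc.H46.K3a
import Pool.Agent.MP_3ad207_lc.H82.Sub

/-! Reversal, restriction and monotonicity for ears, families and gates. -/

set_option autoImplicit false

namespace Pool.Agent.Ehf

variable {V : Type*} {G : SimpleGraph V} {S I : Set V}

@[simp] theorem Ear.rev_set (F : Ear V) : F.rev.set = F.set := seg_rev F.f F.n

@[simp] theorem Ear.rev_a (F : Ear V) : F.rev.a = F.b := rfl

@[simp] theorem Ear.rev_b (F : Ear V) : F.rev.b = F.a := rfl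

@[simp] theorem Ear.rev_n (F : Ear V) : F.rev.n = F.n := rfl

theorem Ear.rev_f (F : Ear V) (i : ℕ) : F.rev.f i = F.f (F.n - i) := rfl

theorem Ear.mem_set {F : Ear V} {x : V} : x ∈ F.set ↔ ∃ i, i ≤ F.n ∧ F.f i = x := by
  simp [Ear.set, mem_seg]

theorem Ear.f_mem (F : Ear V) {i : ℕ} (hi : i ≤ F.n) : F.f i ∈ F.set := Ear.mem_set.2 ⟨i, hi, rfl⟩

theorem Ear.first_mem (F : Ear V) : F.f 0 ∈ F.set := F.f_mem (Nat.zero_le _)

theorem Ear.last_mem (F : Ear V) : F.f F.n ∈ F.set := F.f_mem le_rfl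

theorem mem_free {C : Set V} {v : V} : v ∈ Free G S I C ↔ v ∉ HH S I ∧ ¬ Sees G v C := Iff.rfl

theorem free_mono {C C' : Set V} (h : C' ⊆ C) : Free G S I C ⊆ Free G S I C' :=
  fun _ hv => ⟨hv.1, fun e => hv.2 (e.mono h)⟩

theorem anti_of_free {C Y : Set V} (hY : Y ⊆ Free G S I C) (hC : C ⊆ HH S I) : Anti G Y C :=
  fun _ hy x hx => ⟨fun e => (hY hy).1 (e ▸ hC hx), fun e => (hY hy).2 ⟨x, hx, e⟩⟩

theorem free_of_anti {C Y : Set V} (ho : ∀ v ∈ Y, v ∉ HH S I) (hY : Anti G Y C) :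
    Y ⊆ Free G S I C := fun v hv => ⟨ho v hv, hY.not_sees hv⟩

/-- what survives the deleted sets has no neighbour among the members -/
theorem WoOK.compl_subset_free {Wo : Finset V → Set V} (hW : WoOK G S I Wo) {D : Finset V}
    {C : Set V} (hC : C ⊆ (D : Set V)) : (HH S I ∪ Wo D)ᶜ ⊆ Free G S I C := by
  intro v hv
  have h1 : v ∉ HH S I := fun e => hv (Or.inl e)
  exact ⟨h1, fun e => hv (Or.inr (hW.nb D v h1 (e.mono hC)))⟩

/-- an increasing enumeration of part of a finite set of numbers -/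
theorem exists_enum (J : Finset ℕ) {k : ℕ} (hk : k ≤ J.card) :
    ∃ φ : ℕ → ℕ, (∀ i, i < k → φ i ∈ J) ∧ ∀ i j, i < j → j < k → φ i < φ j := by
  refine ⟨fun i => if hi : i < J.card then J.orderEmbOfFin rfl ⟨i, hi⟩ else 0, ?_, ?_⟩
  · intro i hi
    have : i < J.card := lt_of_lt_of_le hi hk
    simp only [dif_pos this]
    exact Finset.orderEmbOfFin_mem J rfl _
  · intro i j hij hj
    have h2 : j < J.card := lt_of_lt_of_le hj hk
    have h1 : i < J.card := lt_trans hij h2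
    simp only [dif_pos h1, dif_pos h2]
    exact (J.orderEmbOfFin rfl).strictMono (by simpa using hij)

namespace Setup

variable {h : Setup G S I}

theorem Door.symm {g x g' : V} (d : h.Door g x g') : h.Door g' x g :=
  ⟨d.black, d.w2, d.w1, d.ne.symm, d.a2, d.a1⟩

theorem Joins.symm {Y P Q : Set V} (j : h.Joins Y P Q) : h.Joins Y Q P :=
  ⟨j.conn, j.out, j.tQ, j.tP, by rw [Set.union_comm]; exact j.anti⟩

/-- a joining set is anticomplete to every part of the tree that misses both sides -/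
theorem Joins.anti_of {Y P Q Z : Set V} (j : h.Joins Y P Q) (hZ : Z ⊆ HH S I)
    (h1 : ∀ z ∈ Z, z ∉ P) (h2 : ∀ z ∈ Z, z ∉ Q) : Anti G Y Z :=
  j.anti.mono le_rfl fun z hz => ⟨hZ hz, fun e => e.elim (h1 z hz) (h2 z hz)⟩

theorem Joins.mono {Y P Q P' Q' : Set V} (j : h.Joins Y P Q) (hP : P ⊆ P') (hQ : Q ⊆ Q') :
    h.Joins Y P' Q' :=
  ⟨j.conn, j.out, j.tP.mono le_rfl hP, j.tQ.mono le_rfl hQ,
    j.anti.mono le_rfl fun _ hz => ⟨hz.1, fun e => hz.2 (Set.union_subset_union hP hQ e)⟩⟩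

theorem IsEar.rev {F : Ear V} (e : h.IsEar F) : h.IsEar F.rev where
  ip := e.ip.rev
  out := fun i _ => e.out _ (Nat.sub_le _ _)
  aH := e.bH
  bH := e.aH
  ea := e.eb
  eb := by
    show G.Adj (F.f (F.n - F.n)) F.a
    rw [Nat.sub_self]
    exact e.ea
  nbr := by
    intro i hi x hx a
    have hi' : i ≤ F.n := hi
    rcases e.nbr (F.n - i) (Nat.sub_le _ _) x hx a with ⟨h1, h2⟩ | ⟨h1, h2⟩
    · exact Or.inr ⟨show i = F.n by omega, h2⟩
    · by_cases h0 : i = 0
      · exact Or.inl ⟨h0, h2⟩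
      · omega

theorem IsEar.conn {F : Ear V} (e : h.IsEar F) : Conn G F.set :=
  e.ip.conn_seg (Nat.zero_le _) le_rfl

theorem IsEar.notMem {F : Ear V} (e : h.IsEar F) : ∀ v ∈ F.set, v ∉ HH S I := by
  intro v hv
  obtain ⟨i, hi, rfl⟩ := Ear.mem_set.1 hv
  exact e.out i hi

theorem IsEar.touch_a {F : Ear V} (e : h.IsEar F) {P : Set V} (hP : F.a ∈ P) : Touch G F.set P :=
  Touch.of_adj F.first_mem hP e.ea

theorem IsEar.touch_b {F : Ear V} (e : h.IsEar F) {P : Set V} (hP : F.b ∈ P) : Touch G F.set P :=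
  Touch.of_adj F.last_mem hP e.eb

theorem IsEar.a_notMem {F : Ear V} (e : h.IsEar F) {P : Set V} (hP : Anti G F.set P) : F.a ∉ P :=
  fun hm => not_touch.2 hP (e.touch_a hm)

theorem IsEar.b_notMem {F : Ear V} (e : h.IsEar F) {P : Set V} (hP : Anti G F.set P) : F.b ∉ P :=
  fun hm => not_touch.2 hP (e.touch_b hm)

theorem Covers.rev {t z : Ear V} (ha : t.a ∈ HH S I) (hb : t.b ∈ HH S I)
    (c : h.Covers t.rev z.rev) : h.Covers t z := by
  obtain ⟨h1, h2, h3, h4, x₁, m1, x₂, m2, x₃, m3, a1, a2, a3, e1, e2, e3⟩ := c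
  have hs : h.hseg t.rev.a t.rev.b = h.hseg t.a t.b := h.hseg_symm ha hb
  have h2' : z.n = 0 := h2
  have hf : z.rev.f 0 = z.f 0 := by rw [Ear.rev_f, h2']
  rw [hs] at h3 h4 m1 m2 m3
  rw [hf] at e1 e2 e3
  exact ⟨h1, h2, h4, h3, x₁, m1, x₂, m2, x₃, m3, a1, a2, a3, e1, e2, e3⟩

section families

variable {ι κ : Type*} {s : Finset ι} {F : ι → Ear V}

theorem Apart.afam (a : h.Apart s F) : AFam G s fun i => (F i).set :=
  ⟨fun i hi => (a.1 i hi).conn, a.2⟩

theorem Apart.mono (a : h.Apart s F) {t : Finset ι} (hts : t ⊆ s) : h.Apart t F :=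
  ⟨fun i hi => a.1 i (hts hi), fun i hi j hj => a.2 i (hts hi) j (hts hj)⟩

theorem Apart.rev (a : h.Apart s F) : h.Apart s fun i => (F i).rev :=
  ⟨fun i hi => (a.1 i hi).rev, fun i hi j hj hne => by simpa using a.2 i hi j hj hne⟩

theorem Apart.comp (a : h.Apart s F) {t : Finset κ} {φ : κ → ι} (hm : ∀ i ∈ t, φ i ∈ s)
    (hi : ∀ i ∈ t, ∀ j ∈ t, φ i = φ j → i = j) : h.Apart t fun i => F (φ i) :=
  ⟨fun i h1 => a.1 _ (hm i h1), fun i h1 j h2 hne =>
    a.2 _ (hm i h1) _ (hm j h2) fun e => hne (hi i h1 j h2 e)⟩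

theorem Good.apart (g : h.Good s F) : h.Apart s F := g.1

theorem Good.isEar (g : h.Good s F) {i : ι} (hi : i ∈ s) : h.IsEar (F i) := g.1.1 i hi

theorem Good.mono (g : h.Good s F) {t : Finset ι} (hts : t ⊆ s) : h.Good t F :=
  ⟨g.1.mono hts, fun i hi j hj => g.2 i (hts hi) j (hts hj)⟩

theorem Good.rev (g : h.Good s F) : h.Good s fun i => (F i).rev :=
  ⟨g.1.rev, fun i hi j hj hne => ⟨(g.2 i hi j hj hne).2.1, (g.2 i hi j hj hne).1, fun c =>
    (g.2 i hi j hj hne).2.2 (c.rev (g.isEar hi).aH (g.isEar hi).bH)⟩⟩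

theorem Good.comp (g : h.Good s F) {t : Finset κ} {φ : κ → ι} (hm : ∀ i ∈ t, φ i ∈ s)
    (hi : ∀ i ∈ t, ∀ j ∈ t, φ i = φ j → i = j) : h.Good t fun i => F (φ i) :=
  ⟨g.1.comp hm hi, fun i h1 j h2 hne =>
    g.2 _ (hm i h1) _ (hm j h2) fun e => hne (hi i h1 j h2 e)⟩

/-- all members of a good family but one have a left top different from `v` -/
theorem Good.drop_a (g : h.Good s F) (v : V) :
    ∃ t ⊆ s, s.card ≤ t.card + 1 ∧ ∀ i ∈ t, (F i).a ≠ v := by
  classical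
  refine ⟨s.filter fun i => (F i).a ≠ v, Finset.filter_subset _ _, ?_, fun i hi =>
    (Finset.mem_filter.1 hi).2⟩
  have h1 : (s.filter fun i => ¬ (F i).a ≠ v).card ≤ 1 := by
    refine Finset.card_le_one.2 fun i hi j hj => ?_
    obtain ⟨hi1, hi2⟩ := Finset.mem_filter.1 hi
    obtain ⟨hj1, hj2⟩ := Finset.mem_filter.1 hj
    by_contra hne
    exact (g.2 i hi1 j hj1 hne).1 ((not_not.1 hi2).trans (not_not.1 hj2).symm)
  have := Finset.card_filter_add_card_filter_not (s := s) fun i => (F i).a ≠ v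
  omega

/-- all members of a good family but one have a right top different from `v` -/
theorem Good.drop_b (g : h.Good s F) (v : V) :
    ∃ t ⊆ s, s.card ≤ t.card + 1 ∧ ∀ i ∈ t, (F i).b ≠ v := g.rev.drop_a v

end families

theorem NoGood.mono {E E' : Ear V → Prop} {K K' : ℕ} (n : h.NoGood E K) (hE : ∀ F, h.IsEar F → E' F → E F)
    (hK : K ≤ K') : h.NoGood E' K' := fun ι s F g hF =>
  lt_of_lt_of_le (n ι s F g fun i hi => hE _ (g.isEar hi) (hF i hi)) hK

theorem NoGood.rev {E E' : Ear V → Prop} {K : ℕ} (n : h.NoGood E K)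
    (hE : ∀ F, h.IsEar F → E' F → E F.rev) : h.NoGood E' K := fun ι s F g hF =>
  n ι s (fun i => (F i).rev) g.rev fun i hi => hE _ (g.isEar hi) (hF i hi)

theorem Few.mono {E E' : Ear V → Prop} {K K' : ℕ} (n : h.Few E K) (hE : ∀ F, h.IsEar F → E' F → E F)
    (hK : K ≤ K') : h.Few E' K' := fun ι s F g hF =>
  le_trans (n ι s F g fun i hi => hE _ (g.1 i hi) (hF i hi)) hK

theorem Few.rev {E E' : Ear V → Prop} {K : ℕ} (n : h.Few E K)
    (hE : ∀ F, h.IsEar F → E' F → E F.rev) : h.Few E' K := fun ι s F g hF =>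
  n ι s (fun i => (F i).rev) g.rev fun i hi => hE _ (g.1 i hi) (hF i hi)

/-- a bound on links gives a bound on ears -/
theorem few_of_nuLe {E : Ear V → Prop} {U P Q : Set V} {K : ℕ} (n : NuLe G U P Q K)
    (hE : ∀ F, h.IsEar F → E F → F.set ⊆ U ∧ Touch G F.set P ∧ Touch G F.set Q) : h.Few E K :=
  fun _ _ _ g hF => n.card_le g.afam fun i hi => hE _ (g.1 i hi) (hF i hi)

/-- a family of connected sets each of which contains an ear of the class -/
theorem Few.card_le {E : Ear V → Prop} {K : ℕ} (n : h.Few E K) {ι : Type} {s : Finset ι}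
    {Y : ι → Set V} (hY : AFam G s Y)
    (hE : ∀ i ∈ s, ∃ F : Ear V, h.IsEar F ∧ F.set ⊆ Y i ∧ E F) : s.card ≤ K := by
  rcases s.eq_empty_or_nonempty with rfl | ⟨i₀, hi₀⟩
  · simp
  have : Nonempty (Ear V) := ⟨(hE i₀ hi₀).choose⟩
  choose! F hF using hE
  exact n ι s F ⟨fun i hi => (hF i hi).1, fun i hi j hj hne =>
    (hY.2 i hi j hj hne).mono (hF i hi).2.1 (hF j hj).2.1⟩ fun i hi => (hF i hi).2.2

section clean

variable {u : V} {L R : Set V} {n : ℕ} {F : ℕ → Ear V} {al be : ℕ → V}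

theorem Nodes.comp {a : ℕ → V} (N : h.Nodes u L n a al) {k : ℕ} {φ : ℕ → ℕ}
    (hm : ∀ i, i < k → φ i < n) (hφ : ∀ i j, i < j → j < k → φ i < φ j) :
    h.Nodes u L k (fun i => a (φ i)) fun i => al (φ i) :=
  ⟨fun i hi => N.mem _ (hm i hi), fun i hi => N.top _ (hm i hi),
    fun i j hij hj => N.desc _ _ (hφ i j hij hj) (hm j hj)⟩

theorem Spread.comp {X : ℕ → Set V} (N : h.Spread u n X al) {k : ℕ} {φ : ℕ → ℕ}
    (hm : ∀ i, i < k → φ i < n) (hφ : ∀ i j, i < j → j < k → φ i < φ j) :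
    h.Spread u k (fun i => X (φ i)) fun i => al (φ i) :=
  fun i j hij hj => N _ _ (hφ i j hij hj) (hm j hj)

theorem Star.comp {a : ℕ → V} (N : h.Star n a al) {k : ℕ} {φ : ℕ → ℕ}
    (hm : ∀ i, i < k → φ i < n) (hφ : ∀ i j, i < k → j < k → φ i = φ j → i = j) :
    h.Star k (fun i => a (φ i)) fun i => al (φ i) :=
  fun i j hi hj => ⟨(N _ _ (hm i hi) (hm j hj)).1, (N _ _ (hm i hi) (hm j hj)).2.1,
    fun hne => (N _ _ (hm i hi) (hm j hj)).2.2 fun e => hne (hφ i j hi hj e)⟩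

theorem inj_of_lt {k : ℕ} {φ : ℕ → ℕ} (hφ : ∀ i j, i < j → j < k → φ i < φ j) :
    ∀ i j, i < k → j < k → φ i = φ j → i = j := by
  intro i j hi hj e
  rcases lt_trichotomy i j with h1 | h1 | h1
  · exact absurd e (hφ i j h1 hj).ne
  · exact h1
  · exact absurd e (hφ j i h1 hi).ne'

theorem Clean.comp (c : h.Clean u L R n F al be) {k : ℕ} {φ : ℕ → ℕ}
    (hm : ∀ i, i < k → φ i < n) (hφ : ∀ i j, i < j → j < k → φ i < φ j) :
    h.Clean u L R k (fun i => F (φ i)) (fun i => al (φ i)) fun i => be (φ i) where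
  good := c.good.comp (fun i hi => Finset.mem_range.2 (hm i (Finset.mem_range.1 hi)))
    fun i hi j hj => inj_of_lt hφ i j (Finset.mem_range.1 hi) (Finset.mem_range.1 hj)
  same := c.same.imp (fun a i hi => a _ (hm i hi)) fun a i hi => a _ (hm i hi)
  nl := c.nl.comp hm hφ
  nr := c.nr.comp hm hφ
  kl := c.kl.imp (fun a => a.comp hm hφ) fun a => a.comp hm (inj_of_lt hφ)
  kr := c.kr.imp (fun a => a.comp hm hφ) fun a => a.comp hm (inj_of_lt hφ)

theorem Clean.mono (c : h.Clean u L R n F al be) {k : ℕ} (hk : k ≤ n) :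
    h.Clean u L R k F al be :=
  c.comp (φ := fun i => i) (fun _ hi => lt_of_lt_of_le hi hk) fun _ _ hij _ => hij

theorem Spread.rev {be : ℕ → V} (a : h.Spread u n (fun i => (F i).set) be) :
    h.Spread u n (fun i => (F i).rev.set) be := by simpa using a

theorem Spread.of_rev {be : ℕ → V} (a : h.Spread u n (fun i => (F i).rev.set) be) :
    h.Spread u n (fun i => (F i).set) be := by simpa using a

theorem Clean.rev (c : h.Clean u L R n F al be) :
    h.Clean u R L n (fun i => (F i).rev) be al where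
  good := c.good.rev
  same := c.same
  nl := c.nr
  nr := c.nl
  kl := c.kr.imp Spread.rev id
  kr := c.kl.imp Spread.rev id

theorem Clean.isEar (c : h.Clean u L R n F al be) {i : ℕ} (hi : i < n) : h.IsEar (F i) :=
  c.good.isEar (Finset.mem_range.2 hi)

theorem Clean.anti (c : h.Clean u L R n F al be) {i j : ℕ} (hi : i < n) (hj : j < n)
    (hne : i ≠ j) : Anti G (F i).set (F j).set :=
  c.good.1.2 i (Finset.mem_range.2 hi) j (Finset.mem_range.2 hj) hne

theorem Clean.a_ne (c : h.Clean u L R n F al be) {i j : ℕ} (hi : i < n) (hj : j < n)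
    (hne : i ≠ j) : (F i).a ≠ (F j).a :=
  (c.good.2 i (Finset.mem_range.2 hi) j (Finset.mem_range.2 hj) hne).1

theorem Clean.b_ne (c : h.Clean u L R n F al be) {i j : ℕ} (hi : i < n) (hj : j < n)
    (hne : i ≠ j) : (F i).b ≠ (F j).b :=
  (c.good.2 i (Finset.mem_range.2 hi) j (Finset.mem_range.2 hj) hne).2.1

/-- any set of indices gives a bundle -/
theorem Clean.apart (c : h.Clean u L R n F al be) {t : Finset ℕ} (ht : ∀ i ∈ t, i < n) :
    h.Apart t F := c.good.1.mono fun i hi => Finset.mem_range.2 (ht i hi)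

theorem Spread.not_star {X : ℕ → Set V} {a : ℕ → V} (s : h.Spread u n X al) (hn : 2 ≤ n) :
    ¬ h.Star n a al := fun t =>
  (s 0 1 Nat.zero_lt_one hn).1 (t 1 0 hn (by omega)).1

end clean

theorem MinFam.rev {p y y' : V} {A B : Set V} {F : ℕ → Ear V} {al be : ℕ → V}
    (m : h.MinFam p A B y y' F al be) : h.MinFam p B A y' y (fun i => (F i).rev) be al := by
  refine ⟨m.1.rev, fun i hi => (m.2.1 i hi).symm, fun F' al' be' c ht => ?_⟩
  have := m.2.2 (fun i => (F' i).rev) be' al' c.rev fun i hi => (ht i hi).symm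
  omega

theorem Gate.symm {Wo : Finset V → Set V} {p y y' : V} {A B In Out : Set V} {cg kg : ℕ}
    {C D : Finset V} (g : h.Gate Wo p A B cg kg C D In Out y y') :
    h.Gate Wo p B A cg kg C D In Out y' y :=
  ⟨g.pC, g.CD, g.DH, g.card, g.yB, g.yA, g.cover, g.anti,
    fun x hx h1 h2 => (g.inside x hx h1 h2).symm, g.nu⟩

theorem Gate.mono {Wo : Finset V → Set V} {p y y' : V} {A B In Out : Set V} {cg kg cg' kg' : ℕ}
    {C D : Finset V} (g : h.Gate Wo p A B cg kg C D In Out y y') (hc : cg ≤ cg')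
    (hk : kg ≤ kg') : h.Gate Wo p A B cg' kg' C D In Out y y' :=
  ⟨g.pC, g.CD, g.DH, g.card.trans hc, g.yA, g.yB, g.cover, g.anti, g.inside,
    g.nu.mono le_rfl le_rfl le_rfl hk⟩

theorem NextGate.symm {Wo : Finset V → Set V} {p y y' : V} {A B : Set V} {cg kg K : ℕ}
    (g : h.NextGate Wo p A B cg kg K y y') : h.NextGate Wo p B A cg kg K y' y := by
  obtain ⟨C, D, In, Out, x, x', g1, g2, g3⟩ := g
  refine ⟨C, D, In, Out, x', x, g1.symm, by omega, g3.rev fun F _ hF => ?_⟩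
  exact ⟨hF.2.1, hF.1, by simpa using hF.2.2⟩

theorem NextGate.mono {Wo : Finset V → Set V} {p y y' : V} {A B : Set V}
    {cg kg K cg' kg' K' : ℕ} (g : h.NextGate Wo p A B cg kg K y y') (hc : cg ≤ cg')
    (hk : kg ≤ kg') (hK : K ≤ K') : h.NextGate Wo p A B cg' kg' K' y y' := by
  obtain ⟨C, D, In, Out, x, x', g1, g2, g3⟩ := g
  exact ⟨C, D, In, Out, x, x', g1.mono hc hk, g2, g3.mono (fun _ _ a => a) hK⟩

end Setup

end Pool.Agent.Ehf
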