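import Pool.Agent.MP_3ad207_lc.H43.LinDefs

/-! Statements of the lemmas of the non-star case. -/

set_option autoImplicit false

namespace Pool.Agent.Ehf

variable {V : Type*} {G : SimpleGraph V} {S I : Set V}

/-- vertices outside the tree with no neighbour in `C` -/
def Free (G : SimpleGraph V) (S I : Set V) (C : Set V) : Set V :=
  {v | v ∉ HH S I ∧ ¬ Sees G v C}

namespace Setup

/-- `Y` is connected, lies outside the tree, touches `P` and `Q` and nothing else of the tree -/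
structure Joins (h : Setup G S I) (Y P Q : Set V) : Prop where
  conn : Conn G Y
  out : ∀ v ∈ Y, v ∉ HH S I
  tP : Touch G Y P
  tQ : Touch G Y Q
  anti : Anti G Y (HH S I \ (P ∪ Q))

/-- the first vertex of `F` has exactly two neighbours on the path from `u` to `z`: the top of
`F` and its child `y` -/
structure BaseAt (h : Setup G S I) (u : V) (F : Ear V) (z y : V) : Prop where
  adj : G.Adj F.a y
  aOn : F.a ∈ h.hseg u z
  yOn : y ∈ h.hseg u z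
  below : y ∈ h.Sub u F.a
  ey : G.Adj (F.f 0) y
  only : ∀ x ∈ h.hseg u z, G.Adj (F.f 0) x → x = F.a ∨ x = y

/-- the door on the side `L` given by the triangle of member `i`; few links jump over it -/
def DoorAt (h : Setup G S I) (u : V) (L R : Set V) (F : ℕ → Ear V) (al be : ℕ → V) (i : ℕ) :
    Prop :=
  ∃ gin x gout, h.Door gin x gout ∧ x ∈ L ∧ ((F i).a = gin ∨ (F i).a = x) ∧ x ∈ h.Sub u gin ∧
    gout ∈ h.Sub u x ∧ al (i + 1) ∈ h.Sub u gout ∧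
    ∀ η ∈ S \ I, (η = u ∨ η ∈ R) → η ≠ gin → be i ∈ h.SubO x η →
      NuLe G (Free G S I {gin, x, gout, η}) (h.SubO u gout) (h.SubO x gin \ h.Sub x η) 51

end Setup

/-- a connected set that joins the two sides of a white contains an ear -/
def EarOfStmt : Prop :=
  ∀ (V : Type) [Finite V] (G : SimpleGraph V) (S I : Set V) (h : Setup G S I) (u : V)
    (L R Y : Set V), h.Sides u L R → Conn G Y → Y ⊆ Free G S I {u} → Touch G Y L → Touch G Y R →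
    ∃ F : Ear V, h.IsEar F ∧ F.set ⊆ Y ∧ F.a ∈ L ∧ F.b ∈ R

/-- (CMP) -/
def CmpStmt : Prop :=
  ∀ (V : Type) [Finite V] (G : SimpleGraph V) (S I : Set V) (h : Setup G S I) (u : V)
    (L R : Set V) (F F' : Ear V), h.Sides u L R → h.IsEar F → h.IsEar F' → F.a ∈ L → F.b ∈ R →
    F'.a ∈ L → F'.b ∈ R → Anti G F.set F'.set →
    (F.a ∈ h.Sub u F'.a ∨ F'.a ∈ h.Sub u F.a) ∨ (F.b ∈ h.Sub u F'.b ∨ F'.b ∈ h.Sub u F.b)

/-- (X) -/
def XStmt : Prop :=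
  ∀ (V : Type) [Finite V] (G : SimpleGraph V) (S I : Set V) (h : Setup G S I) (u ga gb : V)
    (L R Y₁ Y₂ Y₃ : Set V), h.Sides u L R → ga ∈ L → ga ∈ S \ I → gb ∈ R → gb ∈ S \ I →
    h.Joins Y₁ (h.SubO u ga) (R \ h.Sub u gb) → h.Joins Y₂ (L \ h.Sub u ga) (h.SubO u gb) →
    h.Joins Y₃ (h.SubO u ga) (h.SubO u gb) → Anti G Y₁ Y₂ → Anti G Y₁ Y₃ → Anti G Y₂ Y₃ → False

/-- (X) counted: three sets of each of two types leave few links of the third type -/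
def CrossStmt : Prop :=
  ∀ (V : Type) [Finite V] (G : SimpleGraph V) (S I : Set V) (h : Setup G S I) (u ga gb : V)
    (L R : Set V) (Y Z : Fin 3 → Set V), h.Sides u L R → ga ∈ L → ga ∈ S \ I → gb ∈ R →
    gb ∈ S \ I → (∀ t, h.Joins (Y t) (h.SubO u ga) (R \ h.Sub u gb)) →
    (∀ t, h.Joins (Z t) (h.SubO u ga) (h.SubO u gb)) → (∀ t t', t ≠ t' → Anti G (Y t) (Y t')) →
    (∀ t t', t ≠ t' → Anti G (Z t) (Z t')) → (∀ t t', Anti G (Y t) (Z t')) →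
    NuLe G (Free G S I {u, ga, gb}) (L \ h.Sub u ga) (h.SubO u gb) 68

/-- (CLEANUP) -/
def CleanupStmt : Prop :=
  ∀ K : ℕ, ∃ c k : ℕ, ∀ (V : Type) [Finite V] (G : SimpleGraph V) (S I : Set V)
    (h : Setup G S I) (Wo : Finset V → Set V), WoOK G S I Wo → ∀ (u : V) (L R : Set V)
      (E : Ear V → Prop) (D₀ : Finset V), h.Sides u L R → (∀ F, E F → F.a ∈ L ∧ F.b ∈ R) →
      h.NoGood E K → (D₀ : Set V) ⊆ HH S I → u ∈ D₀ →
      ∃ D : Finset V, D₀ ⊆ D ∧ (D : Set V) ⊆ HH S I ∧ D.card ≤ D₀.card + c ∧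
        h.Few (fun F => E F ∧ F.set ⊆ (Wo D)ᶜ) k

/-- (SIDE) one side of a large family can be made spread or star -/
def SideStmt : Prop :=
  ∀ n : ℕ, ∃ N : ℕ, ∀ (V : Type) [Finite V] (G : SimpleGraph V) (S I : Set V) (h : Setup G S I)
    (u : V) (L R : Set V) (ι : Type) (s : Finset ι) (F : ι → Ear V), h.Sides u L R →
    h.Good s F → (∀ i ∈ s, (F i).a ∈ L ∧ (F i).b ∈ R) → N ≤ s.card →
    ∃ (φ : ℕ → ι) (al : ℕ → V), (∀ i, i < n → φ i ∈ s) ∧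
      (∀ i j, i < n → j < n → φ i = φ j → i = j) ∧ h.Nodes u L n (fun i => (F (φ i)).a) al ∧
      (h.Spread u n (fun i => (F (φ i)).set) al ∨ h.Star n (fun i => (F (φ i)).a) al)

/-- (CLEAN) -/
def CleanStmt : Prop :=
  ∀ n : ℕ, ∃ N : ℕ, ∀ (V : Type) [Finite V] (G : SimpleGraph V) (S I : Set V) (h : Setup G S I)
    (u : V) (L R : Set V) (ι : Type) (s : Finset ι) (F : ι → Ear V), h.Sides u L R →
    h.Good s F → (∀ i ∈ s, (F i).a ∈ L ∧ (F i).b ∈ R) → N ≤ s.card →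
    ∃ (φ : ℕ → ι) (al be : ℕ → V), (∀ i, i < n → φ i ∈ s) ∧
      h.Clean u L R n (fun i => F (φ i)) al be

/-- (TOOTH) -/
def ToothStmt : Prop :=
  ∀ (V : Type) [Finite V] (G : SimpleGraph V) (S I : Set V) (h : Setup G S I) (u w : V)
    (L R : Set V) (F : ℕ → Ear V) (al be : ℕ → V) (ρ : Ear V), h.Sides u L R →
    h.Clean u L R 6 F al be → w ∈ L → w ∈ S \ I → (∀ i, i < 6 → (F i).a ∈ h.Sub u w) →
    h.IsEar ρ → ρ.a ∈ L → ρ.b ∈ R → (∀ i, i < 6 → Anti G ρ.set (F i).set) →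
    Anti G ρ.set (h.Sub u w) → (∀ i, i < 6 → ρ.b ∈ h.Sub u (F i).b) → False

/-- (ALIGN, core) many members of a clean family cannot hang in a branch `Sub u w` that a bundle
of ears avoids -/
def BranchStmt : Prop :=
  ∃ E : ℕ, ∀ (V : Type) [Finite V] (G : SimpleGraph V) (S I : Set V) (h : Setup G S I) (u w : V)
    (L R : Set V) (n : ℕ) (F : ℕ → Ear V) (al be : ℕ → V) (J t : Finset ℕ) (ρ : ℕ → Ear V),
    h.Sides u L R → h.Clean u L R n F al be → w ∈ L → w ∈ S \ I → (∀ j ∈ J, j < n) →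
    E ≤ J.card → (∀ j ∈ J, (F j).a ∈ h.Sub u w) → h.Apart t ρ → 14 ≤ t.card →
    (∀ k ∈ t, (ρ k).a ∈ L ∧ (ρ k).b ∈ R ∧ Disjoint (h.Sub u w) (h.Sub u (ρ k).a)) →
    ((∃ o ∈ HH S I, (∀ k ∈ t, (ρ k).b ∈ h.Sub u o) ∧ ∀ j ∈ J, (F j).b ∉ h.Sub u o) ∨
      ∀ k ∈ t, ∀ k' ∈ t, k ≠ k' → (ρ k).b ∉ h.Sub u (ρ k').b) → False

/-- (ALIGN) the nodes of a clean family with tops outside `Sub u oL`, `Sub u oR` lie on the way
to `oL` -/
def AlignStmt : Prop :=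
  ∃ E : ℕ, ∀ (V : Type) [Finite V] (G : SimpleGraph V) (S I : Set V) (h : Setup G S I)
    (u oL oR : V) (L R : Set V) (n : ℕ) (F : ℕ → Ear V) (al be : ℕ → V) (J t : Finset ℕ)
    (ρ : ℕ → Ear V), h.Sides u L R → h.Clean u L R n F al be → oL ∈ L → oR ∈ R →
    (∀ j ∈ J, j < n) → E ≤ J.card →
    (∀ j ∈ J, (F j).a ∉ h.Sub u oL ∧ (F j).b ∉ h.Sub u oR) → h.Apart t ρ → 14 ≤ t.card →
    (∀ k ∈ t, (ρ k).a ∈ h.Sub u oL ∧ (ρ k).b ∈ h.Sub u oR) → ∃ j ∈ J, oL ∈ h.Sub u (al j)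

/-- (TRI) -/
def TriStmt : Prop :=
  ∀ (V : Type) [Finite V] (G : SimpleGraph V) (S I : Set V) (h : Setup G S I) (u : V)
    (L R : Set V) (n : ℕ) (F : ℕ → Ear V) (al be : ℕ → V) (i k : ℕ), h.Sides u L R →
    h.Clean u L R n F al be → i < k → k < n →
    (∃ y, h.BaseAt u (F i) (F k).a y) ∨ (∃ y, h.BaseAt u (F i).rev (F k).b y)

/-- (BASE) -/
def BaseStmt : Prop :=
  ∀ (V : Type) [Finite V] (G : SimpleGraph V) (S I : Set V) (h : Setup G S I) (u : V)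
    (L R : Set V) (n : ℕ) (F : ℕ → Ear V) (al be : ℕ → V) (i : ℕ) (y : V), h.Sides u L R →
    h.Clean u L R n F al be → i + 4 < n → h.BaseAt u (F i) (F (i + 2)).a y →
    h.Spread u n (fun i => (F i).set) al ∧ h.DoorAt u L R F al be i

/-- (POS, core) a door between `oL` and `oR` that few ears jump over -/
def Pos0Stmt : Prop :=
  ∀ kJ : ℕ, ∃ K : ℕ, ∀ (V : Type) [Finite V] (G : SimpleGraph V) (S I : Set V) (h : Setup G S I)
    (g oL oR : V) (L R Z : Set V) (t : Finset ℕ) (ρ : ℕ → Ear V), h.Sides g L R → oL ∈ L →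
    oL ∈ S \ I → oR ∈ R → oR ∈ S \ I → h.Apart t ρ → 14 ≤ t.card →
    (∀ k ∈ t, (ρ k).a ∈ h.Sub g oL ∧ (ρ k).b ∈ h.Sub g oR) →
    h.Few (fun F => F.a ∈ h.SubO g oL ∧ F.b ∈ R ∧ Anti G F.set Z) kJ →
    h.Few (fun F => F.a ∈ L ∧ F.b ∈ h.SubO g oR ∧ Anti G F.set Z) kJ →
    ∃ gL x gR, h.Door gL x gR ∧ x ∈ h.hseg oL oR ∧ oL ∈ h.Sub x gL ∧ oR ∈ h.Sub x gR ∧
      h.NoGood (fun F => F.a ∈ h.SubO x gL ∧ F.b ∈ h.SubO x gR ∧ Anti G F.set Z) K

/-- (POS) the door in the window of the levels `l`, `l + 24`, `l + 48` of a spread side -/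
def PosStmt : Prop :=
  ∃ K : ℕ, ∀ (V : Type) [Finite V] (G : SimpleGraph V) (S I : Set V) (h : Setup G S I) (p : V)
    (A B : Set V) (n : ℕ) (F : ℕ → Ear V) (al be : ℕ → V) (l : ℕ), h.Sides p A B →
    h.Clean p A B n F al be → h.Spread p n (fun i => (F i).set) al → l + 64 ≤ n →
    ∃ g₁ x g₂, h.Door g₁ x g₂ ∧ g₁ ∈ h.Sub p (al l) ∧ x ∈ h.Sub p g₁ ∧ g₂ ∈ h.Sub p x ∧
      al (l + 49) ∈ h.Sub p g₂ ∧
      h.NoGood (fun E => E.a ∈ h.SubO p g₂ ∧ E.b ∈ A \ h.Sub p g₁ ∧ Anti G E.set (B ∪ {p})) K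

/-- (WALL) -/
def WallStmt : Prop :=
  ∀ (V : Type) [Finite V] (G : SimpleGraph V) (S I : Set V) (C : Finset V) (Low Cen : Set V),
    Setup G S I → (C : Set V) ⊆ HH S I → Low ⊆ HC G S I C → Anti G (HC G S I C \ Low) Low →
    Conn G Cen → Cen ⊆ HH S I → Anti G Cen Low → Anti G Cen ((C : Set V) ∩ (I \ S)) →
    ∃ K : Set V, Conn G K ∧ Cen ⊆ K ∧ Anti G K Low ∧ Anti G K ((C : Set V) ∩ (I \ S)) ∧
      (∀ v ∈ K, v ∈ C → v ∈ Cen) ∧ (∀ v ∈ K, v ∉ HH S I → ¬ Sees G v (C : Set V)) ∧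
      Anti G (HC G S I C \ K) (HC G S I C ∩ K) ∧
      (∀ T, Conn G T → T ⊆ HC G S I C \ Low → Touch G T K → T ⊆ K) ∧
      ∀ Y, Conn G Y → Y ⊆ Free G S I (C : Set V) → Touch G Y (HC G S I C \ K) →
        Touch G Y (HC G S I C ∩ K) → Touch G Y Low

/-- few links join the side branches at the door that belong to `K` with the lower side -/
def TeethStmt : Prop :=
  ∃ k : ℕ, ∀ (V : Type) [Finite V] (G : SimpleGraph V) (S I : Set V) (h : Setup G S I)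
    (g₁ x g₂ : V) (K : Set V) (ρ : Fin 3 → Set V), h.Door g₁ x g₂ → Conn G K → Anti G K {x} →
    Anti G K (h.SubO x g₂) → Touch G K (h.SubO x g₁) →
    (∀ v ∈ K, v ∉ HH S I → ¬ G.Adj v g₁ ∧ ¬ G.Adj v g₂) →
    (∀ w ∈ S \ I, G.Adj x w → w ≠ g₁ → w ≠ g₂ → Touch G (h.SubO x w) K → h.SubO x w ⊆ K) →
    (∀ t, h.Joins (ρ t) (h.SubO x g₂) (h.SubO x g₁) ∧ Anti G (ρ t) K) →
    (∀ t t', t ≠ t' → Anti G (ρ t) (ρ t')) →
    NuLe G (Free G S I {g₁, x, g₂}) (K ∩ (HH S I \ (h.Sub x g₁ ∪ h.Sub x g₂))) (h.SubO x g₂) k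

/-- the same at the centre `x` of a fan, for the part of the tree beyond the white `g` -/
def Teeth2Stmt : Prop :=
  ∃ k : ℕ, ∀ (V : Type) [Finite V] (G : SimpleGraph V) (S I : Set V) (h : Setup G S I)
    (w₀ x g : V) (K : Set V) (w : Fin 3 → V) (ρ : Fin 3 → Set V), x ∈ I \ S → w₀ ∈ S \ I →
    G.Adj x w₀ → g ∈ S \ I → g ∈ h.SubO x w₀ → Conn G K → Anti G K {x} →
    Anti G K (h.SubO x g) → Touch G K (h.SubO x w₀ \ h.Sub x g) →
    (∀ v ∈ K, v ∉ HH S I → ¬ G.Adj v w₀ ∧ ¬ G.Adj v g) →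
    (∀ w' ∈ S \ I, G.Adj x w' → w' ≠ w₀ → Touch G (h.SubO x w') K → h.SubO x w' ⊆ K) →
    (∀ t, w t ∈ S \ I ∧ G.Adj x (w t) ∧ w t ≠ w₀ ∧ h.Joins (ρ t) (h.Sub x (w t)) (h.SubO x g) ∧
      Anti G (ρ t ∪ h.Sub x (w t)) K) →
    (∀ t t', t ≠ t' → w t ≠ w t' ∧ Anti G (ρ t) (ρ t')) →
    NuLe G (Free G S I {w₀, x, g}) (K ∩ (HH S I \ h.Sub x w₀)) (h.SubO x g) k

/-- the gate theorem when both sides are spread -/
def LadderStmt : Prop :=
  ∃ cg kg K : ℕ, ∀ (V : Type) [Finite V] (G : SimpleGraph V) (S I : Set V) (h : Setup G S I)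
    (Wo : Finset V → Set V), WoOK G S I Wo → ∀ (p y y' : V) (A B : Set V) (F : ℕ → Ear V)
      (al be : ℕ → V), h.Sides p A B → y ∈ A → y' ∈ B → h.MinFam p A B y y' F al be →
      h.Spread p 200 (fun i => (F i).set) al → h.Spread p 200 (fun i => (F i).set) be →
      h.NextGate Wo p A B cg kg K y y'

/-- the gate theorem when the side `A` is a star -/
def FanStmt : Prop :=
  ∃ cg kg K : ℕ, ∀ (V : Type) [Finite V] (G : SimpleGraph V) (S I : Set V) (h : Setup G S I)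
    (Wo : Finset V → Set V), WoOK G S I Wo → ∀ (p y y' : V) (A B : Set V) (F : ℕ → Ear V)
      (al be : ℕ → V), h.Sides p A B → y ∈ A → y' ∈ B → h.MinFam p A B y y' F al be →
      h.Star 200 (fun i => (F i).a) al → h.NextGate Wo p A B cg kg K y y'

/-- the gate theorem -/
def GateStmt : Prop :=
  ∃ cg kg K : ℕ, ∀ (V : Type) [Finite V] (G : SimpleGraph V) (S I : Set V) (h : Setup G S I)
    (Wo : Finset V → Set V), WoOK G S I Wo → ∀ (p y y' : V) (A B : Set V) (F : ℕ → Ear V)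
      (al be : ℕ → V), h.Sides p A B → y ∈ A → y' ∈ B → h.MinFam p A B y y' F al be →
      h.NextGate Wo p A B cg kg K y y'

/-- a white with many marks on both sides -/
def BalStmt : Prop :=
  ∀ (V : Type) [Finite V] (G : SimpleGraph V) (S I : Set V) (h : Setup G S I) (M : Finset V)
    (m a : ℕ), (M : Set V) ⊆ HH S I → h.NoStar M a → (a + 2) * (m + 2) ≤ M.card →
    ∃ (p : V) (A B : Set V) (MA MB : Finset V), h.Sides p A B ∧ MA ⊆ M ∧ MB ⊆ M ∧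
      (MA : Set V) ⊆ A ∧ (MB : Set V) ⊆ B ∧ m ≤ MA.card ∧ m ≤ MB.card

/-- WIDTH when no black has marks in many branches -/
def LinStmt : Prop :=
  ∃ (N : ℕ → ℕ → ℕ) (c k : ℕ), ∀ (V : Type) [Finite V] (G : SimpleGraph V) (S I : Set V)
    (h : Setup G S I) (Wo : Finset V → Set V), WoOK G S I Wo → ∀ (m a : ℕ) (M : Finset V),
      (M : Set V) ⊆ HH S I → h.NoStar M a → N m a ≤ M.card → CutOf G S I Wo M m c k

end Pool.Agent.Ehf
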